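import Pool.Agent.U565.FE.Pascal

set_option autoImplicit false

namespace Pool.Agent.U565.FE

open Set Filter Topology

/-- finite descent -/
theorem descent (P : ℝ → Prop) (V : ℝ → ℝ) (C m : ℝ) (hm : 0 < m)
    (h : ∀ t, P t → C ≤ V t → ∃ t', P t' ∧ V t' ≤ V t - m) :
    ∀ t, P t → ∃ t', P t' ∧ V t' < C := by
  have key : ∀ n : ℕ, ∀ t, P t → V t < C + n * m → ∃ t', P t' ∧ V t' < C := by
    intro n
    induction n with
    | zero => intro t ht hV; exact ⟨t, ht, by simpa using hV⟩
    | succ n ih =>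
      intro t ht hV
      rcases lt_or_ge (V t) C with h1 | h1
      · exact ⟨t, ht, h1⟩
      · obtain ⟨t', ht', hV'⟩ := h t ht h1
        refine ih t' ht' ?_
        push_cast at hV
        linarith
  intro t ht
  obtain ⟨n, hn⟩ := exists_nat_gt ((V t - C) / m)
  refine key n t ht ?_
  rw [div_lt_iff₀ hm] at hn
  linarith

/-- a positive lower bound on a compact shell -/
theorem shell_min {φ : ℝ → ℝ} (hφ : Continuous φ) {a b : ℝ}
    (hpos : ∀ t, a ≤ |t| → |t| ≤ b → 0 < φ t) :
    ∃ m : ℝ, 0 < m ∧ ∀ t, a ≤ |t| → |t| ≤ b → m ≤ φ t := by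
  have hK : IsCompact {t : ℝ | a ≤ |t| ∧ |t| ≤ b} := by
    refine (isCompact_Icc (a := -b) (b := b)).of_isClosed_subset ?_ ?_
    · exact (isClosed_le continuous_const continuous_abs).inter
        (isClosed_le continuous_abs continuous_const)
    · intro t ht
      exact abs_le.1 ht.2
  rcases Set.eq_empty_or_nonempty {t : ℝ | a ≤ |t| ∧ |t| ≤ b} with h | h
  · refine ⟨1, one_pos, fun t h1 h2 => ?_⟩
    have : t ∈ {t : ℝ | a ≤ |t| ∧ |t| ≤ b} := ⟨h1, h2⟩
    rw [h] at this
    exact absurd this (Set.notMem_empty t)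
  · obtain ⟨t0, ht0, hmin⟩ := hK.exists_isMinOn h hφ.continuousOn
    exact ⟨φ t0, hpos t0 ht0.1 ht0.2, fun t h1 h2 => hmin ⟨h1, h2⟩⟩

/-- maximum of the ratio on a compact shell -/
theorem shell_max {F : ℝ → ℝ} (hF : Continuous F) {a b : ℝ} (ha : 0 < a) (hab : a ≤ b) :
    ∃ s, a ≤ |s| ∧ |s| ≤ b ∧ ∀ t, a ≤ |t| → |t| ≤ b → |F t| / |t| ≤ |F s| / |s| := by
  have hK : IsCompact {t : ℝ | a ≤ |t| ∧ |t| ≤ b} := by
    refine (isCompact_Icc (a := -b) (b := b)).of_isClosed_subset ?_ ?_
    · exact (isClosed_le continuous_const continuous_abs).inter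
        (isClosed_le continuous_abs continuous_const)
    · intro t ht
      exact abs_le.1 ht.2
  have hne : ({t : ℝ | a ≤ |t| ∧ |t| ≤ b}).Nonempty := ⟨a, by simp [abs_of_pos ha, hab]⟩
  have hc : ContinuousOn (fun t => |F t| / |t|) {t : ℝ | a ≤ |t| ∧ |t| ≤ b} := by
    refine ContinuousOn.div (hF.abs).continuousOn continuous_abs.continuousOn ?_
    intro t ht
    have h1 : a ≤ |t| := ht.1
    linarith
  obtain ⟨s, hs, hmax⟩ := hK.exists_isMaxOn hne hc
  exact ⟨s, hs.1, hs.2, fun t h1 h2 => hmax ⟨h1, h2⟩⟩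

/-- log-convexity, expanding case -/
theorem lc_exp {F G : ℝ → ℝ} {X : Set ℝ} (hFX : ∀ x ∈ X, F x ∈ X) (hGX : ∀ x ∈ X, G x ∈ X)
    (hadd : ∀ x ∈ X, |G x| = |x| + |F x|) (hcomm : ∀ x ∈ X, F (G x) = G (F x))
    (hsurj : ∀ y ∈ X, ∃ x ∈ X, G x = y) {y : ℝ} (hy : y ∈ X) :
    |G y| ^ 2 ≤ |y| * |G (G y)| := by
  choose! s hsX hs using hsurj
  -- backward orbit
  let z : ℕ → ℝ := fun n => s^[n] y
  have hz0 : z 0 = y := rfl
  have hzX : ∀ n, z n ∈ X := by
    intro n
    induction n with
    | zero => exact hy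
    | succ n ih =>
      simp only [z, Function.iterate_succ_apply']
      exact hsX _ ih
  have hz : ∀ n, G (z (n + 1)) = z n := by
    intro n
    simp only [z, Function.iterate_succ_apply']
    exact hs _ (hzX n)
  let x : ℕ → ℝ := fun n => match n with
    | 0 => G (G y)
    | 1 => G y
    | (n + 2) => z n
  have hx : ∀ n, G (x (n + 1)) = x n := by
    intro n
    match n with
    | 0 => rfl
    | 1 => rfl
    | (n + 2) => exact hz n
  have hxX : ∀ n, x n ∈ X := by
    intro n
    match n with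
    | 0 => exact hGX _ (hGX _ hy)
    | 1 => exact hGX _ hy
    | (n + 2) => exact hzX n
  have hFj : ∀ j, ∀ t ∈ X, F^[j] t ∈ X := by
    intro j
    induction j with
    | zero => intro t ht; exact ht
    | succ j ih => intro t ht; rw [Function.iterate_succ_apply']; exact hFX _ (ih t ht)
  have hcj : ∀ j, ∀ t ∈ X, F^[j] (G t) = G (F^[j] t) := by
    intro j
    induction j with
    | zero => intro t ht; rfl
    | succ j ih =>
      intro t ht
      rw [Function.iterate_succ_apply', Function.iterate_succ_apply', ih t ht, hcomm _ (hFj j t ht)]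
  have := logconvex (W := fun i j => |F^[j] (x (i + j))|) ?_ (fun i j => abs_nonneg _)
  · simp only [Function.iterate_zero, id_eq, add_zero] at this
    have h1 : x 0 = G (G y) := rfl
    have h2 : x 1 = G y := rfl
    have h3 : x 2 = y := rfl
    rw [h1, h2, h3] at this
    linarith [mul_comm |G (G y)| |y|]
  · intro i j
    have e1 : i + 1 + j = i + j + 1 := by ring
    have e2 : i + (j + 1) = i + j + 1 := by ring
    rw [e1, e2, ← hx (i + j), hcj j _ (hxX _), hadd _ (hFj j _ (hxX _)),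
      Function.iterate_succ_apply']

/-- log-convexity, contracting case -/
theorem lc_contr {F G : ℝ → ℝ} {X : Set ℝ} (hFX : ∀ x ∈ X, F x ∈ X) (hGX : ∀ x ∈ X, G x ∈ X)
    (hadd : ∀ x ∈ X, |x| = |G x| + |F x|) (hcomm : ∀ x ∈ X, F (G x) = G (F x))
    {y : ℝ} (hy : y ∈ X) :
    |G y| ^ 2 ≤ |y| * |G (G y)| := by
  have hFj : ∀ j, ∀ t ∈ X, F^[j] t ∈ X := by
    intro j
    induction j with
    | zero => intro t ht; exact ht
    | succ j ih => intro t ht; rw [Function.iterate_succ_apply']; exact hFX _ (ih t ht)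
  have hGj : ∀ j, ∀ t ∈ X, G^[j] t ∈ X := by
    intro j
    induction j with
    | zero => intro t ht; exact ht
    | succ j ih => intro t ht; rw [Function.iterate_succ_apply']; exact hGX _ (ih t ht)
  have hcj : ∀ j, ∀ t ∈ X, F (G^[j] t) = G^[j] (F t) := by
    intro j
    induction j with
    | zero => intro t ht; rfl
    | succ j ih =>
      intro t ht
      rw [Function.iterate_succ_apply', Function.iterate_succ_apply', hcomm _ (hGj j t ht), ih t ht]
  have := logconvex (W := fun i j => |G^[i] (F^[j] y)|) ?_ (fun i j => abs_nonneg _)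
  · simpa using this
  · intro i j
    rw [Function.iterate_succ_apply', Function.iterate_succ_apply', ← hcj i _ (hFj j _ hy)]
    exact hadd _ (hGj i _ (hFj j _ hy))

end Pool.Agent.U565.FE
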