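import Pool.Agent.U565.FE.Basic

/-!
The contracting case: `G x = x + F x`, `x F(x) < 0`, `x G(x) > 0`.
-/

set_option autoImplicit false

namespace Pool.Agent.U565.FE

open Set Filter Topology

structure Contr (F G : ℝ → ℝ) : Prop where
  contF : Continuous F
  contG : Continuous G
  zero : F 0 = 0
  eqG : ∀ x, G x = x + F x
  comm : ∀ x, F (G x) = G (F x)
  neg : ∀ x, x ≠ 0 → x * F x < 0
  pos : ∀ x, x ≠ 0 → 0 < x * G x

namespace Contr

variable {F G : ℝ → ℝ} (h : Contr F G)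

include h

theorem abs_add (x : ℝ) : |x| = |G x| + |F x| := by
  rcases lt_trichotomy x 0 with hx | hx | hx
  · have h1 := h.neg x hx.ne
    have h2 := h.pos x hx.ne
    have h3 : 0 < F x := by by_contra hc; push Not at hc; nlinarith
    have h4 : G x < 0 := by by_contra hc; push Not at hc; nlinarith
    rw [abs_of_neg hx, abs_of_neg h4, abs_of_pos h3, h.eqG]; ring
  · rw [hx, h.eqG, h.zero]; simp
  · have h1 := h.neg x hx.ne'
    have h2 := h.pos x hx.ne'
    have h3 : F x < 0 := by by_contra hc; push Not at hc; nlinarith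
    have h4 : 0 < G x := by by_contra hc; push Not at hc; nlinarith
    rw [abs_of_pos hx, abs_of_pos h4, abs_of_neg h3, h.eqG]; ring

theorem F_ne {x : ℝ} (hx : x ≠ 0) : F x ≠ 0 := by
  intro h0; have := h.neg x hx; rw [h0] at this; simp at this

theorem G_ne {x : ℝ} (hx : x ≠ 0) : G x ≠ 0 := by
  intro h0; have := h.pos x hx; rw [h0] at this; simp at this

theorem zeroG : G 0 = 0 := by rw [h.eqG, h.zero]; ring

theorem lcG (y : ℝ) : |G y| ^ 2 ≤ |y| * |G (G y)| :=
  lc_contr (X := univ) (fun _ _ => mem_univ _) (fun _ _ => mem_univ _)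
    (fun x _ => h.abs_add x) (fun x _ => h.comm x) (mem_univ y)

theorem lcF (y : ℝ) : |F y| ^ 2 ≤ |y| * |F (F y)| :=
  lc_contr (F := G) (G := F) (X := univ) (fun _ _ => mem_univ _) (fun _ _ => mem_univ _)
    (fun x _ => by rw [add_comm]; exact h.abs_add x) (fun x _ => (h.comm x).symm) (mem_univ y)

theorem ratio_F {x : ℝ} (hx : x ≠ 0) : |F x| / |x| ≤ |F (F x)| / |F x| := by
  have hx0 : 0 < |x| := abs_pos.2 hx
  have hf0 : 0 < |F x| := abs_pos.2 (h.F_ne hx)
  rw [div_le_div_iff₀ hx0 hf0]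
  have h1 := h.lcF x
  nlinarith

theorem ratio_G {x : ℝ} (hx : x ≠ 0) : |F (G x)| / |G x| ≤ |F x| / |x| := by
  have hx0 : 0 < |x| := abs_pos.2 hx
  have hg0 : 0 < |G x| := abs_pos.2 (h.G_ne hx)
  rw [div_le_div_iff₀ hg0 hx0]
  have h1 := h.lcF x
  have h2 := h.abs_add x
  have h3 := h.abs_add (F x)
  rw [← h.comm x] at h3
  have e1 : |F (G x)| = |F x| - |F (F x)| := by linarith
  have e2 : |G x| = |x| - |F x| := by linarith
  rw [e1, e2]
  nlinarith

/-- the ratio has a maximum -/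
theorem exists_max : ∃ s, s ≠ 0 ∧ ∀ x, x ≠ 0 → |F x| / |x| ≤ |F s| / |s| := by
  set κ : ℝ := min |G 1| |G (-1)| with hκ
  have hκ0 : 0 < κ := lt_min (abs_pos.2 (h.G_ne one_ne_zero)) (abs_pos.2 (h.G_ne (by norm_num)))
  have hκ1 : κ ≤ 1 := by
    have h1 := h.abs_add 1
    rw [abs_one] at h1
    have := abs_nonneg (F 1)
    exact (min_le_left _ _).trans (by linarith)
  obtain ⟨s, hs1, hs2, hmax⟩ := shell_max h.contF hκ0 hκ1
  have hs0 : s ≠ 0 := by intro h0; rw [h0, abs_zero] at hs1; linarith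
  refine ⟨s, hs0, ?_⟩
  -- preimages of small points
  have pre : ∀ x, x ≠ 0 → |x| < κ → ∃ y, y ≠ 0 ∧ |y| ≤ 1 ∧ G y = x := by
    intro x hx hxκ
    set τ : ℝ := x / |x| with hτ
    have hx0 : 0 < |x| := abs_pos.2 hx
    have hτ1 : |τ| = 1 := by rw [hτ, abs_div, abs_abs, div_self hx0.ne']
    have hcont : ContinuousOn (fun t : ℝ => |G (τ * t)|) (Icc 0 1) :=
      (h.contG.comp (continuous_const.mul continuous_id)).abs.continuousOn
    have hτG : κ ≤ |G (τ * 1)| := by
      rw [mul_one]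
      rcases (abs_eq one_pos.le).1 hτ1 with e | e
      · rw [e]; exact min_le_left _ _
      · rw [e]; exact min_le_right _ _
    obtain ⟨t, ht, hts⟩ := intermediate_value_Icc (one_pos.le) hcont
      (show |x| ∈ Icc (|G (τ * 0)|) (|G (τ * 1)|) from
        ⟨by rw [mul_zero, h.zeroG, abs_zero]; exact hx0.le, by linarith⟩)
    simp only at hts
    have hy0 : τ * t ≠ 0 := by
      intro h0; rw [h0, h.zeroG, abs_zero] at hts; linarith
    have ht0 : 0 < t := by
      rcases ht.1.eq_or_lt with h3 | h3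
      · rw [← h3] at hy0; simp at hy0
      · exact h3
    refine ⟨τ * t, hy0, by rw [abs_mul, hτ1, one_mul, abs_of_pos ht0]; exact ht.2, ?_⟩
    have h4 := h.pos _ hy0
    have h5 : 0 < x * G (τ * t) := by
      have h6 : τ * t * G (τ * t) = (t / |x|) * (x * G (τ * t)) := by rw [hτ]; ring
      rw [h6] at h4
      exact (pos_iff_pos_of_mul_pos h4).1 (by positivity)
    rcases abs_eq_abs.1 hts with h8 | h8
    · exact h8
    · rw [h8] at h5
      nlinarith [mul_self_nonneg x]
  -- small points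
  have small : ∀ x, x ≠ 0 → |x| ≤ 1 → |F x| / |x| ≤ |F s| / |s| := by
    intro x hx hx1
    obtain ⟨m, hm, hmin⟩ := shell_min (φ := fun t => |F t|) h.contF.abs (a := |x|) (b := 1)
      (fun t h1 _ => abs_pos.2 (h.F_ne (by
        intro h2; rw [h2, abs_zero] at h1; exact hx (abs_eq_zero.1 (le_antisymm h1 (abs_nonneg x))))))
    obtain ⟨t, ⟨ht1, ht2, ht3, ht5⟩, ht4⟩ := descent
      (fun t => t ≠ 0 ∧ |x| ≤ |t| ∧ |t| ≤ 1 ∧ |F x| / |x| ≤ |F t| / |t|)
      (fun t => -|t|) (-κ + m) m hm (by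
        rintro t ⟨h0, h1, h2, h3⟩ h4
        have h4' : |t| < κ := by linarith
        obtain ⟨y, hy0, hy1, hy⟩ := pre t h0 h4'
        have h5 := h.abs_add y
        rw [hy] at h5
        have h6 : |x| ≤ |y| := by linarith [abs_nonneg (F y)]
        refine ⟨y, ⟨hy0, h6, hy1, h3.trans ?_⟩, ?_⟩
        · have := h.ratio_G hy0; rwa [hy] at this
        · have := hmin y h6 hy1
          linarith) x ⟨hx, le_rfl, hx1, le_rfl⟩
    -- one more step if needed
    rcases le_or_gt κ |t| with h6 | h6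
    · exact ht5.trans (hmax t h6 ht3)
    · obtain ⟨y, hy0, hy1, hy⟩ := pre t ht1 h6
      have h5 := h.abs_add y
      rw [hy] at h5
      have h7 : |x| ≤ |y| := by linarith [abs_nonneg (F y)]
      have h8 := hmin y h7 hy1
      have h9 := h.ratio_G hy0
      rw [hy] at h9
      refine ht5.trans (h9.trans (hmax y ?_ hy1))
      linarith
  intro x hx
  obtain ⟨m, hm, hmin⟩ := shell_min (φ := fun t => |G t|) h.contG.abs (a := 1) (b := |x|)
      (fun t h1 _ => abs_pos.2 (h.G_ne (by intro h2; rw [h2, abs_zero] at h1; linarith)))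
  obtain ⟨t, ⟨ht1, ht2, ht3⟩, ht4⟩ := descent
      (fun t => t ≠ 0 ∧ |t| ≤ |x| ∧ |F x| / |x| ≤ |F t| / |t|) (fun t => |t|) 1 m hm (by
        rintro t ⟨h1, h2, h3⟩ h4
        have h5 := h.abs_add t
        refine ⟨F t, ⟨h.F_ne h1, ?_, h3.trans (h.ratio_F h1)⟩, ?_⟩
        · linarith [abs_nonneg (G t)]
        · have := hmin t h4 h2
          linarith) x ⟨hx, le_rfl, le_rfl⟩
  exact ht3.trans (small t ht1 ht4.le)

/-- closure properties of the set of maximal ratio -/
theorem closure_props {A : ℝ} (hmax : ∀ x, |F x| ≤ A * |x|) :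
    (∀ s, s ≠ 0 → |F s| = A * |s| → |F (F s)| = A * |F s|) ∧
    (∀ s, s ≠ 0 → |F s| = A * |s| → |F (G s)| = A * |G s|) ∧
    (∀ t, t ≠ 0 → |F (G t)| = A * |G t| → |F t| = A * |t|) := by
  have h1 : ∀ s, s ≠ 0 → |F s| = A * |s| → |F (F s)| = A * |F s| := by
    intro s hs hsS
    have hs0 : 0 < |s| := abs_pos.2 hs
    have hf0 : 0 < |F s| := abs_pos.2 (h.F_ne hs)
    apply le_antisymm (hmax _)
    have h2 := h.ratio_F hs
    rw [hsS, mul_div_assoc, div_self hs0.ne', mul_one, ← hsS, le_div_iff₀ hf0] at h2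
    exact h2
  refine ⟨h1, fun s hs hsS => ?_, fun t ht htS => ?_⟩
  · have hg0 : 0 < |G s| := abs_pos.2 (h.G_ne hs)
    have h2 := h1 s hs hsS
    -- `V(y) = |F²y| - 2A|F y| + A²|y|` is additive and nonnegative
    have a0 := h.abs_add s
    have a1 := h.abs_add (F s)
    have a2 := h.abs_add (F (F s))
    have c1 := h.comm s
    have c2 := h.comm (F s)
    have e1 : |F (G s)| = |F s| - |F (F s)| := by rw [c1]; linarith
    have e2 : |G s| = |s| - |F s| := by linarith
    rw [e1, e2, h2, hsS]; ring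
  · have ht0 : 0 < |t| := abs_pos.2 ht
    have hg0 : 0 < |G t| := abs_pos.2 (h.G_ne ht)
    apply le_antisymm (hmax _)
    have h2 := h.ratio_G ht
    rw [htS, mul_div_assoc, div_self hg0.ne', mul_one, le_div_iff₀ ht0] at h2
    exact h2

theorem sign_iff {x y : ℝ} (hx : x ≠ 0) (hy : y ≠ 0) : 0 < x * y ↔ 0 < G x * G y := by
  have h1 := h.pos x hx
  have h2 := h.pos y hy
  have h3 : 0 < (x * y) * (G x * G y) := by
    have h4 := mul_pos h1 h2
    nlinarith
  exact pos_iff_pos_of_mul_pos h3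

theorem order {A : ℝ} (hA1 : A < 1) (hmax : ∀ x, |F x| ≤ A * |x|) {s x : ℝ} (hs : s ≠ 0)
    (hsS : |F s| = A * |s|) (hxs : 0 < x * s) (hlt : |x| < |s|) : |G x| < |G s| := by
  by_contra hc
  push Not at hc
  have hx : x ≠ 0 := left_ne_zero_of_mul hxs.ne'
  have hx0 : 0 < |x| := abs_pos.2 hx
  set τ : ℝ := x / |x| with hτ
  have hτ1 : |τ| = 1 := by rw [hτ, abs_div, abs_abs, div_self hx0.ne']
  have hτx : τ * |x| = x := by rw [hτ]; field_simp
  have hcont : ContinuousOn (fun t : ℝ => |G (τ * t)|) (Icc 0 |x|) :=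
    (h.contG.comp (continuous_const.mul continuous_id)).abs.continuousOn
  obtain ⟨t, ht, hts⟩ := intermediate_value_Icc (hx0.le) hcont
    (show |G s| ∈ Icc (|G (τ * 0)|) (|G (τ * |x|)|) from
      ⟨by rw [mul_zero, h.zeroG, abs_zero]; exact abs_nonneg _, by rw [hτx]; exact hc⟩)
  simp only at hts
  have hGs0 : 0 < |G s| := abs_pos.2 (h.G_ne hs)
  have hy0 : τ * t ≠ 0 := by
    intro h0; rw [h0, h.zeroG, abs_zero] at hts; linarith
  have ht0 : 0 < t := by
    rcases ht.1.eq_or_lt with h3 | h3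
    · rw [← h3] at hy0; simp at hy0
    · exact h3
  have hys : 0 < (τ * t) * s := by
    have : (τ * t) * s = (t / |x|) * (x * s) := by rw [hτ]; ring
    rw [this]; exact mul_pos (div_pos ht0 hx0) hxs
  have hGG : 0 < G (τ * t) * G s := (h.sign_iff hy0 hs).1 hys
  have hE : G (τ * t) = G s := by
    rcases abs_eq_abs.1 hts with h8 | h8
    · exact h8
    · rw [h8] at hGG
      nlinarith [mul_self_nonneg (G s)]
  have h1 := (h.closure_props hmax).2.1 s hs hsS
  have h2 : |F (τ * t)| = A * |τ * t| := (h.closure_props hmax).2.2 _ hy0 (by rw [hE]; exact h1)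
  have h3 := h.abs_add (τ * t)
  have h4 := h.abs_add s
  rw [hE] at h3
  have h5 : (1 - A) * |τ * t| = (1 - A) * |s| := by linarith
  have h6 := mul_left_cancel₀ (by linarith : (1 - A) ≠ 0) h5
  rw [abs_mul, hτ1, one_mul, abs_of_pos ht0] at h6
  linarith [ht.2]

theorem chain {A : ℝ} (hA1 : A < 1) (hmax : ∀ x, |F x| ≤ A * |x|) (n : ℕ) :
    ∀ s x : ℝ, s ≠ 0 → |F s| = A * |s| → 0 < x * s → |x| < |s| →
      (1 - |F x| / |x|) ^ n * |x| < (1 - A) ^ n * |s| := by
  induction n with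
  | zero => intro s x hs hsS hxs hlt; simpa using hlt
  | succ n ih =>
    intro s x hs hsS hxs hlt
    have hx : x ≠ 0 := left_ne_zero_of_mul hxs.ne'
    have hx0 : 0 < |x| := abs_pos.2 hx
    have hGx0 : 0 < |G x| := abs_pos.2 (h.G_ne hx)
    have h1 := (h.closure_props hmax).2.1 s hs hsS
    have h2 := h.order hA1 hmax hs hsS hxs hlt
    have h3 := ih (G s) (G x) (h.G_ne hs) h1 ((h.sign_iff hx hs).1 hxs) h2
    have h4 := h.ratio_G hx
    have h5 : |G x| = (1 - |F x| / |x|) * |x| := by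
      have := h.abs_add x
      field_simp
      linarith
    have h6 : |G s| = (1 - A) * |s| := by
      have := h.abs_add s
      linarith
    have h7 : 0 < 1 - |F x| / |x| := by
      have : 0 < (1 - |F x| / |x|) * |x| := by rw [← h5]; exact hGx0
      exact (pos_iff_pos_of_mul_pos this).2 hx0
    calc (1 - |F x| / |x|) ^ (n + 1) * |x| = (1 - |F x| / |x|) ^ n * |G x| := by
          rw [h5]; ring
      _ ≤ (1 - |F (G x)| / |G x|) ^ n * |G x| := by
          apply mul_le_mul_of_nonneg_right _ hGx0.le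
          exact pow_le_pow_left₀ h7.le (by linarith) n
      _ < (1 - A) ^ n * |G s| := h3
      _ = (1 - A) ^ (n + 1) * |s| := by rw [h6]; ring

theorem below' {A : ℝ} (hA1 : A < 1) (hmax : ∀ x, |F x| ≤ A * |x|) {s x : ℝ}
    (hs : s ≠ 0) (hsS : |F s| = A * |s|) (hxs : 0 < x * s) (hlt : |x| < |s|) :
    |F x| = A * |x| := by
  have hx : x ≠ 0 := left_ne_zero_of_mul hxs.ne'
  have hx0 : 0 < |x| := abs_pos.2 hx
  apply le_antisymm (hmax x)
  by_contra hc
  push Not at hc
  set r := |F x| / |x| with hr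
  have hrA : r < A := by rw [hr, div_lt_iff₀ hx0]; exact hc
  have hq : 1 < (1 - r) / (1 - A) := by rw [one_lt_div (by linarith)]; linarith
  obtain ⟨n, hn⟩ := pow_unbounded_of_one_lt (|s| / |x|) hq
  have h1 := h.chain hA1 hmax n s x hs hsS hxs hlt
  rw [← hr] at h1
  have hp2 : 0 < (1 - A) ^ n := pow_pos (by linarith) n
  rw [div_pow, div_lt_div_iff₀ hx0 hp2] at hn
  linarith

/-- **Contracting case.** -/
theorem main : ∃ A, 0 < A ∧ ∀ x, |F x| = A * |x| := by
  obtain ⟨s0, hs0, hmax0⟩ := h.exists_max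
  have hs00 : 0 < |s0| := abs_pos.2 hs0
  set A := |F s0| / |s0| with hAdef
  have hA : 0 < A := div_pos (abs_pos.2 (h.F_ne hs0)) hs00
  have hmax : ∀ x, |F x| ≤ A * |x| := by
    intro x
    rcases eq_or_ne x 0 with hx | hx
    · rw [hx, h.zero]; simp
    · have := hmax0 x hx
      rwa [div_le_iff₀ (abs_pos.2 hx)] at this
  have hsA : |F s0| = A * |s0| := by rw [hAdef]; field_simp
  have hA1 : A < 1 := by
    rw [hAdef, div_lt_one hs00]
    have := h.abs_add s0
    have := abs_pos.2 (h.G_ne hs0)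
    linarith
  -- every point on the side of an extremal point
  have side : ∀ s, s ≠ 0 → |F s| = A * |s| → ∀ x, 0 < x * s → |F x| = A * |x| := by
    intro s hs hsS x hxs
    have hx : x ≠ 0 := left_ne_zero_of_mul hxs.ne'
    have hx0 : 0 < |x| := abs_pos.2 hx
    have hsp : 0 < |s| := abs_pos.2 hs
    obtain ⟨m, hm, hmin⟩ := shell_min (φ := fun t => |F t|) h.contF.abs (a := |s|) (b := |x|)
      (fun t h1 _ => abs_pos.2 (h.F_ne (by intro h2; rw [h2, abs_zero] at h1; linarith)))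
    obtain ⟨t, ⟨ht1, ht2, ht3⟩, ht4⟩ := descent
      (fun t => 0 < t * s ∧ |t| ≤ |x| ∧ |F t| / |t| ≤ |F x| / |x|) (fun t => |t|) |s| m hm (by
        rintro t ⟨h1, h2, h3⟩ h4
        have ht0 : t ≠ 0 := left_ne_zero_of_mul h1.ne'
        have h5 := h.abs_add t
        refine ⟨G t, ⟨?_, ?_, (h.ratio_G ht0).trans h3⟩, ?_⟩
        · have h6 := h.pos t ht0
          have h7 : 0 < (G t * s) * (t * t) := by
            have := mul_pos h6 h1
            nlinarith
          exact (pos_iff_pos_of_mul_pos h7).2 (mul_self_pos.2 ht0)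
        · linarith [abs_nonneg (F t)]
        · have := hmin t h4 h2
          linarith) x ⟨hxs, le_rfl, le_rfl⟩
    have ht0 : 0 < |t| := abs_pos.2 (left_ne_zero_of_mul ht1.ne')
    have h8 := h.below' hA1 hmax hs hsS ht1 ht4
    rw [h8, mul_div_assoc, div_self ht0.ne', mul_one, le_div_iff₀ hx0] at ht3
    exact le_antisymm (hmax x) ht3
  refine ⟨A, hA, fun x => ?_⟩
  rcases eq_or_ne x 0 with hx | hx
  · rw [hx, h.zero]; simp
  · have hFs := h.F_ne hs0
    have hneg := h.neg s0 hs0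
    rcases lt_or_gt_of_ne (mul_ne_zero hx hs0) with h1 | h1
    · refine side (F s0) hFs ((h.closure_props hmax).1 s0 hs0 hsA) x ?_
      have h2 : 0 < (x * F s0) * (s0 * s0) := by
        have := mul_pos_of_neg_of_neg h1 hneg
        nlinarith
      exact (pos_iff_pos_of_mul_pos h2).2 (mul_self_pos.2 hs0)
    · exact side s0 hs0 hsA x h1

end Contr

end Pool.Agent.U565.FE
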