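import Pool.Agent.U565.FE.Basic

/-!
The expanding case: `G x = σ x + F x`, `σ = ± 1`, with `F x` of the sign of `σ x`.
-/

set_option autoImplicit false

namespace Pool.Agent.U565.FE

open Set Filter Topology

structure Expd (σ : ℝ) (F G : ℝ → ℝ) : Prop where
  sq : σ = 1 ∨ σ = -1
  contF : Continuous F
  contG : Continuous G
  zero : F 0 = 0
  eqG : ∀ x, G x = σ * x + F x
  comm : ∀ x, F (G x) = G (F x)
  pos : ∀ x, x ≠ 0 → 0 < σ * (x * F x)

namespace Expd

variable {σ : ℝ} {F G : ℝ → ℝ} (h : Expd σ F G)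

include h

theorem abs_sigma : |σ| = 1 := by rcases h.sq with e | e <;> simp [e]

theorem abs_add (x : ℝ) : |G x| = |x| + |F x| := by
  rcases eq_or_ne x 0 with hx | hx
  · rw [hx, h.eqG, h.zero]; simp
  · have h1 := h.pos x hx
    have h2 : |σ * x| = |x| := by rw [abs_mul, h.abs_sigma, one_mul]
    rw [h.eqG, ← h2]
    have h3 : 0 < (σ * x) * F x := by linarith
    rcases lt_or_gt_of_ne (left_ne_zero_of_mul h3.ne') with h4 | h4
    · have h5 : F x < 0 := by
        by_contra hc; push Not at hc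
        nlinarith
      rw [abs_of_neg h4, abs_of_neg h5, abs_of_neg (by linarith)]; ring
    · have h5 : 0 < F x := by
        by_contra hc; push Not at hc
        nlinarith
      rw [abs_of_pos h4, abs_of_pos h5, abs_of_pos (by linarith)]

theorem F_ne {x : ℝ} (hx : x ≠ 0) : F x ≠ 0 := by
  intro h0
  have := h.pos x hx
  rw [h0] at this
  simp at this

theorem absF_pos {x : ℝ} (hx : x ≠ 0) : 0 < |F x| := abs_pos.2 (h.F_ne hx)

theorem lt_absG {x : ℝ} (hx : x ≠ 0) : |x| < |G x| := by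
  have := h.abs_add x
  have := h.absF_pos hx
  linarith

theorem G_ne {x : ℝ} (hx : x ≠ 0) : G x ≠ 0 := by
  intro h0
  have := h.lt_absG hx
  rw [h0, abs_zero] at this
  linarith [abs_nonneg x]

theorem signG {x : ℝ} (hx : x ≠ 0) : 0 < σ * (x * G x) := by
  have h1 := h.pos x hx
  rw [h.eqG]
  have h2 : σ * σ = 1 := by rcases h.sq with e | e <;> rw [e] <;> norm_num
  have h3 : σ * (x * (σ * x + F x)) = (σ * σ) * (x * x) + σ * (x * F x) := by ring
  rw [h3, h2]
  have : 0 < x * x := mul_self_pos.2 hx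
  linarith

theorem sigma_sq : σ * σ = 1 := by rcases h.sq with e | e <;> rw [e] <;> norm_num

theorem zeroG : G 0 = 0 := by rw [h.eqG, h.zero]; ring

/-- preimages, with sign information -/
theorem surj {y : ℝ} (hy : y ≠ 0) : ∃ x, x ≠ 0 ∧ G x = y := by
  -- the side of the preimage
  have hs2 := h.sigma_sq
  set τ : ℝ := σ * (y / |y|) with hτ
  have hy0 : 0 < |y| := abs_pos.2 hy
  have hτ1 : |τ| = 1 := by
    rw [hτ, abs_mul, h.abs_sigma, abs_div, abs_abs, div_self hy0.ne', mul_one]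
  have hcont : ContinuousOn (fun t : ℝ => |G (τ * t)|) (Icc 0 |y|) :=
    (h.contG.comp (continuous_const.mul continuous_id)).abs.continuousOn
  have h0 : |G (τ * 0)| = 0 := by rw [mul_zero, h.zeroG, abs_zero]
  have hτy : τ * |y| = σ * y := by rw [hτ]; field_simp
  have h1 : |y| ≤ |G (τ * |y|)| := by
    rw [hτy]
    have : |σ * y| = |y| := by rw [abs_mul, h.abs_sigma, one_mul]
    rw [h.abs_add, this]
    linarith [abs_nonneg (F (σ * y))]
  obtain ⟨t, ht, hty⟩ := intermediate_value_Icc hy0.le hcont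
    (show |y| ∈ Icc (|G (τ * 0)|) (|G (τ * |y|)|) from ⟨by rw [h0]; exact hy0.le, h1⟩)
  simp only at hty
  have hx : τ * t ≠ 0 := by
    intro h2
    rw [h2, h.zeroG, abs_zero] at hty
    linarith
  refine ⟨τ * t, hx, ?_⟩
  have ht0 : 0 < t := by
    rcases ht.1.eq_or_lt with h3 | h3
    · rw [← h3] at hx; simp at hx
    · exact h3
  have h4 := h.signG hx
  have h5 : 0 < y * G (τ * t) := by
    have h6 : σ * (τ * t * G (τ * t)) = (σ * σ) * (t / |y|) * (y * G (τ * t)) := by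
      rw [hτ]; ring
    rw [h6, hs2, one_mul] at h4
    have h7 : 0 < t / |y| := by positivity
    exact (pos_iff_pos_of_mul_pos h4).1 h7
  rcases abs_eq_abs.1 hty with h8 | h8
  · exact h8
  · rw [h8] at h5
    nlinarith [mul_self_nonneg y]

/-- log-convexity along the maps -/
theorem lcG (y : ℝ) : |G y| ^ 2 ≤ |y| * |G (G y)| := by
  refine lc_exp (X := univ) (fun _ _ => mem_univ _) (fun _ _ => mem_univ _)
    (fun x _ => h.abs_add x) (fun x _ => h.comm x) ?_ (mem_univ y)
  intro z _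
  rcases eq_or_ne z 0 with hz | hz
  · exact ⟨0, mem_univ _, by rw [h.zeroG, hz]⟩
  · obtain ⟨x, -, hx⟩ := h.surj hz
    exact ⟨x, mem_univ _, hx⟩

theorem lcF (y : ℝ) : |F y| ^ 2 ≤ |y| * |F (F y)| := by
  have h1 := h.lcG y
  have h2 := h.abs_add y
  have h3 := h.abs_add (G y)
  have h4 := h.abs_add (F y)
  rw [h.comm y] at h3
  rw [h3, h4, h2] at h1
  nlinarith

/-- the ratio does not decrease along `G` -/
theorem ratio_G {x : ℝ} (hx : x ≠ 0) : |F x| / |x| ≤ |F (G x)| / |G x| := by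
  have hx0 : 0 < |x| := abs_pos.2 hx
  have hg0 : 0 < |G x| := abs_pos.2 (h.G_ne hx)
  rw [div_le_div_iff₀ hx0 hg0]
  have h1 := h.lcF x
  have h2 := h.abs_add x
  have h3 := h.abs_add (F x)
  rw [h.comm x, h2, h3]
  nlinarith

theorem ratio_GF {x : ℝ} (hx : x ≠ 0) : |F (G x)| / |G x| ≤ |F (F x)| / |F x| := by
  have hf0 : 0 < |F x| := h.absF_pos hx
  have hg0 : 0 < |G x| := abs_pos.2 (h.G_ne hx)
  rw [div_le_div_iff₀ hg0 hf0]
  have h1 := h.lcF x
  have h2 := h.abs_add x
  have h3 := h.abs_add (F x)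
  rw [h.comm x, h2, h3]
  nlinarith

/-- the ratio has a maximum -/
theorem exists_max : ∃ s, s ≠ 0 ∧ ∀ x, x ≠ 0 → |F x| / |x| ≤ |F s| / |s| := by
  obtain ⟨B, hB⟩ := (isCompact_Icc (a := (-1 : ℝ)) (b := 1)).exists_bound_of_continuousOn
    h.contG.continuousOn
  have hB' : ∀ t : ℝ, |t| ≤ 1 → |G t| ≤ max B 1 := fun t ht => by
    have := hB t (abs_le.1 ht)
    rw [Real.norm_eq_abs] at this
    exact this.trans (le_max_left _ _)
  obtain ⟨s, hs1, hs2, hmax⟩ := shell_max h.contF one_pos (le_max_right B 1)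
  have hs0 : s ≠ 0 := by
    intro h0; rw [h0, abs_zero] at hs1; linarith
  refine ⟨s, hs0, ?_⟩
  -- small points
  have small : ∀ x, x ≠ 0 → |x| ≤ 1 → |F x| / |x| ≤ |F s| / |s| := by
    intro x hx hx1
    have hx0 : 0 < |x| := abs_pos.2 hx
    obtain ⟨m, hm, hmin⟩ := shell_min (φ := fun t => |F t|) h.contF.abs (a := |x|) (b := 1)
      (fun t h1 _ => h.absF_pos (by intro h2; rw [h2, abs_zero] at h1; linarith))
    obtain ⟨t, ⟨ht1, ht2, ht3⟩, ht4⟩ := descent
      (fun t => |x| ≤ |t| ∧ |t| ≤ max B 1 ∧ |F x| / |x| ≤ |F t| / |t|) (fun t => -|t|) (-1) m hm (by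
        rintro t ⟨h1, h2, h3⟩ h4
        have h4' : |t| ≤ 1 := by linarith
        have ht0 : t ≠ 0 := by intro h5; rw [h5, abs_zero] at h1; linarith
        refine ⟨G t, ⟨?_, hB' t h4', h3.trans (h.ratio_G ht0)⟩, ?_⟩
        · exact h1.trans (h.lt_absG ht0).le
        · have := hmin t h1 h4'
          rw [h.abs_add t]; linarith) x ⟨le_rfl, hx1.trans (le_max_right _ _), le_rfl⟩
    exact ht3.trans (hmax t (by linarith) ht2)
  intro x hx
  -- `G` is small near zero
  obtain ⟨η, hη, hη1⟩ : ∃ η : ℝ, 0 < η ∧ ∀ t, |t| < η → |G t| < 1 := by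
    have h0 : ContinuousAt G 0 := h.contG.continuousAt
    obtain ⟨η, hη, h1⟩ := Metric.continuousAt_iff.1 h0 1 one_pos
    refine ⟨η, hη, fun t ht => ?_⟩
    have h2 := h1 (x := t) (by simpa using ht)
    simpa [h.zeroG] using h2
  obtain ⟨t, ⟨ht1, ht2⟩, ht3⟩ := descent
      (fun t => t ≠ 0 ∧ |F x| / |x| ≤ |F t| / |t|) (fun t => |t|) 1 η hη (by
        rintro t ⟨h1, h2⟩ h4
        obtain ⟨u, hu0, hu⟩ := h.surj h1
        refine ⟨F u, ⟨h.F_ne hu0, ?_⟩, ?_⟩
        · refine h2.trans ?_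
          have := h.ratio_GF hu0
          rwa [hu] at this
        · have h5 : η ≤ |u| := by
            by_contra hc; push Not at hc
            have := hη1 u hc
            rw [hu] at this; linarith
          have h6 := h.abs_add u
          rw [hu] at h6
          linarith) x ⟨hx, le_rfl⟩
  exact ht2.trans (small t ht1 ht3.le)

/-- the maximum ratio set is closed under the maps `G` and its inverse branches, and contains
every point below one of its points -/
theorem below {A : ℝ} (hA : 0 < A) (hmax : ∀ x, |F x| ≤ A * |x|) :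
    (∀ s, s ≠ 0 → |F s| = A * |s| → |F (G s)| = A * |G s| ∧ |G s| = (1 + A) * |s|) ∧
    (∀ s, s ≠ 0 → |F s| = A * |s| → ∀ z, G z = s → |F z| = A * |z| ∧ |s| = (1 + A) * |z|) := by
  have hS : ∀ s, s ≠ 0 → |F s| = A * |s| → |F (G s)| = A * |G s| ∧ |G s| = (1 + A) * |s| := by
    intro s hs h1
    have hs0 : 0 < |s| := abs_pos.2 hs
    have hg0 : 0 < |G s| := abs_pos.2 (h.G_ne hs)
    refine ⟨?_, by rw [h.abs_add, h1]; ring⟩
    apply le_antisymm (hmax _)
    have h2 := h.ratio_G hs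
    rw [h1, mul_div_assoc, div_self hs0.ne', mul_one, le_div_iff₀ hg0] at h2
    exact h2
  refine ⟨hS, fun s hs h1 z hz => ?_⟩
  have hs0 : 0 < |s| := abs_pos.2 hs
  have h2 := h.lcG (F z)
  have h3 : G (F z) = F s := by rw [← h.comm, hz]
  rw [h3, ← h.comm s, (hS s hs h1).1, (hS s hs h1).2, h1] at h2
  -- `A² s² ≤ |F z| A (1+A) |s|`
  have h4 : A * |s| ≤ (1 + A) * |F z| := by
    have h5 : (A * |s|) * (A * |s|) ≤ (A * |s|) * ((1 + A) * |F z|) := by nlinarith
    exact le_of_mul_le_mul_left h5 (by positivity)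
  have h5 := h.abs_add z
  rw [hz] at h5
  have h6 := hmax z
  have h7 : |F z| = A * |z| := by
    apply le_antisymm h6
    rw [h5] at h4
    linarith
  exact ⟨h7, by rw [h5, h7]; ring⟩

theorem sign_iff {x y : ℝ} (hx : x ≠ 0) (hy : y ≠ 0) : 0 < x * y ↔ 0 < G x * G y := by
  have h1 := h.signG hx
  have h2 := h.signG hy
  have h3 : 0 < (x * y) * (G x * G y) := by
    have h4 := mul_pos h1 h2
    have h5 : σ * (x * G x) * (σ * (y * G y)) = (σ * σ) * ((x * y) * (G x * G y)) := by ring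
    rw [h5, h.sigma_sq, one_mul] at h4
    exact h4
  exact pos_iff_pos_of_mul_pos h3

theorem order {A : ℝ} (hA : 0 < A) (hmax : ∀ x, |F x| ≤ A * |x|) {s x w : ℝ} (hs : s ≠ 0)
    (hsS : |F s| = A * |s|) (hxs : 0 < x * s) (hlt : |x| < |s|) (hw : G w = x) :
    (1 + A) * |w| < |s| := by
  by_contra hc
  push Not at hc
  have hx : x ≠ 0 := left_ne_zero_of_mul hxs.ne'
  have hw0 : w ≠ 0 := by intro h0; rw [h0, h.zeroG] at hw; exact hx hw.symm
  obtain ⟨z, hz0, hz⟩ := h.surj hs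
  obtain ⟨hz1, hz2⟩ := (h.below hA hmax).2 s hs hsS z hz
  have hwz : 0 < w * z := by
    rw [h.sign_iff hw0 hz0, hw, hz]; exact hxs
  have hwx : |w| < |x| := by rw [← hw]; exact h.lt_absG hw0
  have hzw : |z| ≤ |w| := by nlinarith
  -- go from `w` up
  set τ : ℝ := w / |w| with hτ
  have hw00 : 0 < |w| := abs_pos.2 hw0
  have hτw : τ * |w| = w := by rw [hτ]; field_simp
  have hτ1 : |τ| = 1 := by rw [hτ, abs_div, abs_abs, div_self hw00.ne']
  have hcont : ContinuousOn (fun t : ℝ => |G (τ * t)|) (Icc |w| |s|) :=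
    (h.contG.comp (continuous_const.mul continuous_id)).abs.continuousOn
  obtain ⟨t, ht, hts⟩ := intermediate_value_Icc (by linarith) hcont
    (show |s| ∈ Icc (|G (τ * |w|)|) (|G (τ * |s|)|) from by
      refine ⟨by rw [hτw, hw]; exact hlt.le, ?_⟩
      rw [h.abs_add, abs_mul, hτ1, abs_abs, one_mul]
      linarith [abs_nonneg (F (τ * |s|))])
  simp only at hts
  have ht0 : 0 < t := by linarith [ht.1]
  have hτt0 : τ * t ≠ 0 := mul_ne_zero (by intro h0; rw [h0, abs_zero] at hτ1; norm_num at hτ1) ht0.ne'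
  have hsg : 0 < G (τ * t) * s := by
    have h1 : 0 < (τ * t) * w := by
      have : (τ * t) * w = t / |w| * (w * w) := by rw [hτ]; ring
      rw [this]; exact mul_pos (div_pos ht0 hw00) (mul_self_pos.2 hw0)
    rw [h.sign_iff hτt0 hw0, hw] at h1
    -- `G (τ t) * x > 0` and `x * s > 0`
    have h2 : 0 < (G (τ * t) * s) * (x * x) := by
      have := mul_pos h1 hxs
      nlinarith
    exact (pos_iff_pos_of_mul_pos h2).2 (mul_self_pos.2 hx)
  have hGs : G (τ * t) = s := by
    rcases abs_eq_abs.1 hts with h8 | h8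
    · exact h8
    · rw [h8] at hsg
      nlinarith [mul_self_nonneg s]
  obtain ⟨-, h9⟩ := (h.below hA hmax).2 s hs hsS _ hGs
  rw [abs_mul, hτ1, one_mul, abs_of_pos ht0] at h9
  have h10 : t = |z| := by
    have : (1 + A) * t = (1 + A) * |z| := by linarith
    exact mul_left_cancel₀ (by positivity) this
  have h11 : t = |w| := le_antisymm (by rw [h10]; exact hzw) ht.1
  -- then `w = τ t`
  rw [h11, hτw, hw] at hGs
  rw [hGs] at hlt
  exact lt_irrefl _ hlt

theorem chain {A : ℝ} (hA : 0 < A) (hmax : ∀ x, |F x| ≤ A * |x|) (n : ℕ) :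
    ∀ s x : ℝ, s ≠ 0 → |F s| = A * |s| → 0 < x * s → |x| < |s| →
      ∃ w, w ≠ 0 ∧ (1 + A) ^ n * |w| < |s| ∧ |x| ≤ (1 + |F x| / |x|) ^ n * |w| ∧
        |F w| / |w| ≤ |F x| / |x| := by
  induction n with
  | zero =>
    intro s x hs hsS hxs hlt
    exact ⟨x, left_ne_zero_of_mul hxs.ne', by simpa using hlt, by simp, le_rfl⟩
  | succ n ih =>
    intro s x hs hsS hxs hlt
    have hx : x ≠ 0 := left_ne_zero_of_mul hxs.ne'
    obtain ⟨w1, hw10, hw1⟩ := h.surj hx
    obtain ⟨z, hz0, hz⟩ := h.surj hs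
    obtain ⟨hz1, hz2⟩ := (h.below hA hmax).2 s hs hsS z hz
    have h1 := h.order hA hmax hs hsS hxs hlt hw1
    have h2 : 0 < w1 * z := by rw [h.sign_iff hw10 hz0, hw1, hz]; exact hxs
    have h3 : |w1| < |z| := by nlinarith
    obtain ⟨w, hw0, hwa, hwb, hwc⟩ := ih z w1 hz0 hz1 h2 h3
    have h4 : |F w1| / |w1| ≤ |F x| / |x| := by
      have := h.ratio_G hw10
      rwa [hw1] at this
    refine ⟨w, hw0, ?_, ?_, hwc.trans h4⟩
    · rw [pow_succ, hz2]
      have : 0 < 1 + A := by linarith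
      nlinarith
    · have hw1p : 0 < |w1| := abs_pos.2 hw10
      have h5 : |x| = (1 + |F w1| / |w1|) * |w1| := by
        rw [← hw1, h.abs_add w1]; field_simp
      have h6 : 0 ≤ |F w1| / |w1| := by positivity
      calc |x| = (1 + |F w1| / |w1|) * |w1| := h5
        _ ≤ (1 + |F x| / |x|) * ((1 + |F x| / |x|) ^ n * |w|) := by
            apply mul_le_mul (by linarith) _ (abs_nonneg _) (by linarith)
            refine hwb.trans ?_
            apply mul_le_mul_of_nonneg_right _ (abs_nonneg _)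
            exact pow_le_pow_left₀ (by linarith) (by linarith) n
        _ = (1 + |F x| / |x|) ^ (n + 1) * |w| := by rw [pow_succ]; ring

theorem below' {A : ℝ} (hA : 0 < A) (hmax : ∀ x, |F x| ≤ A * |x|) {s x : ℝ} (hs : s ≠ 0)
    (hsS : |F s| = A * |s|) (hxs : 0 < x * s) (hlt : |x| < |s|) : |F x| = A * |x| := by
  have hx : x ≠ 0 := left_ne_zero_of_mul hxs.ne'
  have hx0 : 0 < |x| := abs_pos.2 hx
  apply le_antisymm (hmax x)
  by_contra hc
  push Not at hc
  set r := |F x| / |x| with hr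
  have hrA : r < A := by rw [hr, div_lt_iff₀ hx0]; exact hc
  have hr0 : 0 ≤ r := by positivity
  have hq : 1 < (1 + A) / (1 + r) := by rw [one_lt_div (by linarith)]; linarith
  obtain ⟨n, hn⟩ := pow_unbounded_of_one_lt (|s| / |x|) hq
  obtain ⟨w, hw0, h1, h2, -⟩ := h.chain hA hmax n s x hs hsS hxs hlt
  rw [← hr] at h2
  rw [div_pow, div_lt_div_iff₀ hx0 (by positivity)] at hn
  have hp : 0 < (1 + r) ^ n := by positivity
  have hp2 : 0 < (1 + A) ^ n := by positivity
  have h3 : (1 + A) ^ n * |x| ≤ (1 + r) ^ n * ((1 + A) ^ n * |w|) := by nlinarith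
  nlinarith

/-- **Expanding case.** -/
theorem main : ∃ A, 0 < A ∧ (∀ x, |F x| ≤ A * |x|) ∧
    ∃ s, s ≠ 0 ∧ |F s| = A * |s| ∧ |F (G s)| = A * |G s| ∧
    ∀ s, s ≠ 0 → |F s| = A * |s| → ∀ x, 0 < x * s → |F x| = A * |x| := by
  obtain ⟨s0, hs0, hmax0⟩ := h.exists_max
  have hs00 : 0 < |s0| := abs_pos.2 hs0
  set A := |F s0| / |s0| with hAdef
  have hA : 0 < A := div_pos (h.absF_pos hs0) hs00
  have hmax : ∀ x, |F x| ≤ A * |x| := by
    intro x
    rcases eq_or_ne x 0 with hx | hx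
    · rw [hx, h.zero]; simp
    · have := hmax0 x hx
      rwa [div_le_iff₀ (abs_pos.2 hx)] at this
  have hsA : |F s0| = A * |s0| := by rw [hAdef]; field_simp
  refine ⟨A, hA, hmax, s0, hs0, hsA, ((h.below hA hmax).1 s0 hs0 hsA).1, ?_⟩
  intro s hs hsS x hxs
  -- a larger element on the same side
  have hbig : ∀ n : ℕ, ∃ s', s' ≠ 0 ∧ |F s'| = A * |s'| ∧ 0 < s * s' ∧
      |s| * (1 + n * A) ≤ |s'| := by
    intro n
    induction n with
    | zero => exact ⟨s, hs, hsS, mul_self_pos.2 hs, by simp⟩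
    | succ n ih =>
      obtain ⟨s', h1, h2, h3, h4⟩ := ih
      obtain ⟨h5, h6⟩ := (h.below hA hmax).1 s' h1 h2
      have h7 := h.G_ne h1
      obtain ⟨h8, h9⟩ := (h.below hA hmax).1 (G s') h7 h5
      refine ⟨G (G s'), h.G_ne h7, h8, ?_, ?_⟩
      · have e1 := mul_pos (h.signG h1) (h.signG h7)
        have e2 : σ * (s' * G s') * (σ * (G s' * G (G s'))) =
            (σ * σ) * ((G s' * G s') * (s' * G (G s'))) := by ring
        rw [e2, h.sigma_sq, one_mul] at e1
        have e3 : 0 < s' * G (G s') := (pos_iff_pos_of_mul_pos e1).1 (mul_self_pos.2 h7)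
        have e4 : 0 < (s * G (G s')) * (s' * s') := by
          have := mul_pos h3 e3
          nlinarith
        exact (pos_iff_pos_of_mul_pos e4).2 (mul_self_pos.2 h1)
      · rw [h9, h6]
        have hsp : 0 < |s| := abs_pos.2 hs
        have hn : (0 : ℝ) ≤ n := Nat.cast_nonneg n
        push_cast
        have h10 : |s| ≤ |s'| := by nlinarith [mul_nonneg hn hA.le]
        have h11 : (1 + A) * |s'| ≤ (1 + A) * ((1 + A) * |s'|) := by
          have : 0 ≤ (1 + A) * |s'| := by positivity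
          nlinarith
        nlinarith
  obtain ⟨n, hn⟩ := exists_nat_gt (|x| / (|s| * A))
  have hsp : 0 < |s| := abs_pos.2 hs
  rw [div_lt_iff₀ (by positivity)] at hn
  obtain ⟨s', h1, h2, h3, h4⟩ := hbig n
  refine h.below' hA hmax h1 h2 ?_ (by nlinarith)
  have h5 : 0 < (x * s') * (s * s) := by
    have := mul_pos hxs h3
    nlinarith
  exact (pos_iff_pos_of_mul_pos h5).2 (mul_self_pos.2 hs)

end Expd

end Pool.Agent.U565.FE
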