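import Pool.Agent.U565.FE.Sign

set_option autoImplicit false

namespace Pool.Agent.U565.FE

open Set Filter Topology

/-- sign-changing solutions -/
structure Flip (f : ℝ → ℝ) : Prop extends Sol f where
  neg : ∀ x, 0 < x → f x < 0
  pos : ∀ x, x < 0 → 0 < f x

namespace Flip

variable {f : ℝ → ℝ} (h : Flip f)

include h

theorem zero_iff {x : ℝ} (hx : f x = 0) : x = 0 := by
  rcases lt_trichotomy x 0 with h1 | h1 | h1
  · exact absurd hx (h.pos x h1).ne'
  · exact h1
  · exact absurd hx (h.neg x h1).ne

theorem mul_neg' {x : ℝ} (hx : x ≠ 0) : x * f x < 0 := by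
  rcases lt_or_gt_of_ne hx with h1 | h1
  · have := h.pos x h1; nlinarith
  · have := h.neg x h1; nlinarith

theorem neg_of_f_pos {x : ℝ} (hx : 0 < f x) : x < 0 := by
  by_contra hc
  push Not at hc
  rcases hc.eq_or_lt with e | e
  · rw [← e, h.toSol.zero] at hx; exact lt_irrefl _ hx
  · have := h.neg x e; linarith

theorem pos_of_f_neg {x : ℝ} (hx : f x < 0) : 0 < x := by
  by_contra hc
  push Not at hc
  rcases hc.eq_or_lt with e | e
  · rw [e, h.toSol.zero] at hx; exact lt_irrefl _ hx
  · have := h.pos x e; linarith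

theorem mirror : Flip (fun x => -f (-x)) :=
  ⟨h.toSol.mirror, fun x hx => by have := h.pos (-x) (by linarith); linarith,
    fun x hx => by have := h.neg (-x) (by linarith); linarith⟩

/-- if `g` has no zero off the origin then `f` is linear -/
theorem linear_of_no_zero (hM : ∀ x, x ≠ 0 → gg f x ≠ 0) : ∃ a, ∀ x, f x = a * x := by
  have S := h.toSol
  have hc : Continuous (gg f) := S.contg
  rcases lt_or_gt_of_ne (hM 1 one_ne_zero) with h1 | h1
  · -- expanding
    have hp : ∀ x, 0 < x → gg f x < 0 := by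
      intro x hx
      by_contra hcn
      push Not at hcn
      have hmem : (0 : ℝ) ∈ uIcc (gg f 1) (gg f x) := by
        rw [uIcc_of_le (by linarith)]; exact ⟨h1.le, hcn⟩
      obtain ⟨u, hu, hu0⟩ := intermediate_value_uIcc hc.continuousOn hmem
      have : 0 < u := lt_of_lt_of_le (lt_min one_pos hx) hu.1
      exact hM u this.ne' hu0
    have hn : ∀ x, x < 0 → 0 < gg f x := by
      intro x hx
      have h2 := hp (f x) (h.pos x hx)
      rw [← S.comm] at h2
      exact h.pos_of_f_neg h2
    have E : Expd (-1) (gg f) f := by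
      refine ⟨Or.inr rfl, hc, S.cont, by unfold gg; rw [S.zero]; ring, fun x => by unfold gg; ring,
        fun x => (S.comm x).symm, fun x hx => ?_⟩
      rcases lt_or_gt_of_ne hx with h2 | h2
      · have := hn x h2; nlinarith
      · have := hp x h2; nlinarith
    obtain ⟨A, hA, -, s, hs0, hsA, hsA', hside⟩ := E.main
    have hall : ∀ x, |gg f x| = A * |x| := by
      intro x
      rcases eq_or_ne x 0 with h2 | h2
      · rw [h2]; unfold gg; rw [S.zero]; simp
      · rcases lt_or_gt_of_ne (mul_ne_zero h2 hs0) with h3 | h3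
        · refine hside (f s) (E.G_ne hs0) hsA' x ?_
          have h4 := h.mul_neg' hs0
          have h5 : 0 < (x * f s) * (s * s) := by
            have := mul_pos_of_neg_of_neg h3 h4
            nlinarith
          exact (pos_iff_pos_of_mul_pos h5).2 (mul_self_pos.2 hs0)
        · exact hside s hs0 hsA x h3
    refine ⟨-(1 + A), fun x => ?_⟩
    have h2 := hall x
    rcases lt_trichotomy x 0 with h3 | h3 | h3
    · rw [abs_of_pos (hn x h3), abs_of_neg h3] at h2
      unfold gg at h2; linarith
    · rw [h3, S.zero]; ring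
    · rw [abs_of_neg (hp x h3), abs_of_pos h3] at h2
      unfold gg at h2; linarith
  · -- contracting
    have hp : ∀ x, 0 < x → 0 < gg f x := by
      intro x hx
      by_contra hcn
      push Not at hcn
      have hmem : (0 : ℝ) ∈ uIcc (gg f 1) (gg f x) := by
        rw [uIcc_of_ge (by linarith)]; exact ⟨hcn, h1.le⟩
      obtain ⟨u, hu, hu0⟩ := intermediate_value_uIcc hc.continuousOn hmem
      have : 0 < u := lt_of_lt_of_le (lt_min one_pos hx) hu.1
      exact hM u this.ne' hu0
    have hn : ∀ x, x < 0 → gg f x < 0 := by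
      intro x hx
      have h2 := hp (f x) (h.pos x hx)
      rw [← S.comm] at h2
      exact h.neg_of_f_pos h2
    have E : Contr f (gg f) := by
      refine ⟨S.cont, hc, S.zero, fun x => rfl, S.comm, fun x hx => h.mul_neg' hx, fun x hx => ?_⟩
      rcases lt_or_gt_of_ne hx with h2 | h2
      · have := hn x h2; nlinarith
      · have := hp x h2; nlinarith
    obtain ⟨A, hA, hall⟩ := E.main
    refine ⟨-A, fun x => ?_⟩
    have h2 := hall x
    rcases lt_trichotomy x 0 with h3 | h3 | h3
    · rw [abs_of_pos (h.pos x h3), abs_of_neg h3] at h2; linarith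
    · rw [h3, S.zero]; ring
    · rw [abs_of_neg (h.neg x h3), abs_of_pos h3] at h2; linarith

/-! ### zeros of `g` -/

theorem M_symm {m : ℝ} (hm : gg f m = 0) : gg f (-m) = 0 := by
  have h1 : f m = -m := by unfold gg at hm; linarith
  have h2 := h.toSol.comm m
  rw [hm, h.toSol.zero, h1] at h2
  exact h2.symm

theorem M_unique {m x : ℝ} (hm : gg f m = 0) (hx : f x = f m) : x = m := by
  have h1 : f m = -m := by unfold gg at hm; linarith
  have h2 := h.toSol.comm x
  rw [hx, h1, h.M_symm hm] at h2
  have h3 := h.zero_iff h2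
  unfold gg at h3
  rw [hx, h1] at h3
  linarith

/-- below a point of `M` -/
theorem M_below {m x : ℝ} (hm0 : 0 < m) (hm : gg f m = 0) (hx : |x| < m) : |f x| < m := by
  have S := h.toSol
  have h1 : f m = -m := by unfold gg at hm; linarith
  have hm' := h.M_symm hm
  have h1' : f (-m) = m := by unfold gg at hm'; linarith
  obtain ⟨hx1, hx2⟩ := abs_lt.1 hx
  by_contra hc
  push Not at hc
  rcases lt_trichotomy x 0 with h3 | h3 | h3
  · rw [abs_of_pos (h.pos x h3)] at hc
    obtain ⟨u, hu, hu0⟩ := intermediate_value_Icc' h3.le S.cont.continuousOn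
      (show m ∈ Icc (f 0) (f x) from ⟨by rw [S.zero]; exact hm0.le, hc⟩)
    have := h.M_unique hm' (hu0.trans h1'.symm)
    linarith [hu.1]
  · rw [h3, S.zero, abs_zero] at hc; linarith
  · rw [abs_of_neg (h.neg x h3)] at hc
    obtain ⟨u, hu, hu0⟩ := intermediate_value_Icc' h3.le S.cont.continuousOn
      (show -m ∈ Icc (f x) (f 0) from ⟨by linarith, by rw [S.zero]; linarith⟩)
    have := h.M_unique hm (hu0.trans h1.symm)
    linarith [hu.2]

/-- between two points of `M` -/
theorem M_between {m m' x : ℝ} (hm0 : 0 < m) (hm : gg f m = 0) (hm' : gg f m' = 0)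
    (hx : m < |x|) (hx' : |x| < m') : m < |f x| := by
  have S := h.toSol
  have h1 : f m = -m := by unfold gg at hm; linarith
  have h2 : f m' = -m' := by unfold gg at hm'; linarith
  have n1 := h.M_symm hm
  have n2 := h.M_symm hm'
  have h1' : f (-m) = m := by unfold gg at n1; linarith
  have h2' : f (-m') = m' := by unfold gg at n2; linarith
  by_contra hc
  push Not at hc
  rcases lt_trichotomy x 0 with h3 | h3 | h3
  · rw [abs_of_pos (h.pos x h3)] at hc
    rw [abs_of_neg h3] at hx hx'
    obtain ⟨u, hu, hu0⟩ := intermediate_value_Icc' (show -m' ≤ x by linarith) S.cont.continuousOn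
      (show m ∈ Icc (f x) (f (-m')) from ⟨hc, by rw [h2']; linarith⟩)
    have := h.M_unique n1 (hu0.trans h1'.symm)
    linarith [hu.2]
  · rw [h3, abs_zero] at hx; linarith
  · rw [abs_of_neg (h.neg x h3)] at hc
    rw [abs_of_pos h3] at hx hx'
    obtain ⟨u, hu, hu0⟩ := intermediate_value_Icc' hx'.le S.cont.continuousOn
      (show -m ∈ Icc (f m') (f x) from ⟨by rw [h2]; linarith, by linarith⟩)
    have := h.M_unique hm (hu0.trans h1.symm)
    linarith [hu.1]

/-- `f` preserves the type -/
theorem type_f (x : ℝ) : (0 < x * gg f x → 0 < f x * gg f (f x)) ∧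
    (x * gg f x < 0 → f x * gg f (f x) < 0) := by
  have S := h.toSol
  constructor
  · intro h1
    have hx : x ≠ 0 := left_ne_zero_of_mul h1.ne'
    rw [← S.comm]
    rcases lt_or_gt_of_ne hx with h2 | h2
    · have h3 : gg f x < 0 := by by_contra hc; push Not at hc; nlinarith
      exact mul_pos (h.pos x h2) (h.pos _ h3)
    · have h3 : 0 < gg f x := by by_contra hc; push Not at hc; nlinarith
      exact mul_pos_of_neg_of_neg (h.neg x h2) (h.neg _ h3)
  · intro h1
    have hx : x ≠ 0 := left_ne_zero_of_mul h1.ne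
    rw [← S.comm]
    rcases lt_or_gt_of_ne hx with h2 | h2
    · have h3 : 0 < gg f x := by by_contra hc; push Not at hc; nlinarith
      exact mul_neg_of_pos_of_neg (h.pos x h2) (h.neg _ h3)
    · have h3 : gg f x < 0 := by by_contra hc; push Not at hc; nlinarith
      exact mul_neg_of_neg_of_pos (h.neg x h2) (h.pos _ h3)

theorem abs_contr {x : ℝ} (hx : 0 < x * gg f x) : |x| = |gg f x| + |f x| := by
  have hx0 : x ≠ 0 := left_ne_zero_of_mul hx.ne'
  rcases lt_or_gt_of_ne hx0 with h2 | h2
  · have h3 : gg f x < 0 := by by_contra hc; push Not at hc; nlinarith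
    have h4 := h.pos x h2
    rw [abs_of_neg h2, abs_of_neg h3, abs_of_pos h4]
    unfold gg; ring
  · have h3 : 0 < gg f x := by by_contra hc; push Not at hc; nlinarith
    have h4 := h.neg x h2
    rw [abs_of_pos h2, abs_of_pos h3, abs_of_neg h4]
    unfold gg; ring

theorem abs_exp {x : ℝ} (hx : x * gg f x < 0) : |f x| = |x| + |gg f x| := by
  have hx0 : x ≠ 0 := left_ne_zero_of_mul hx.ne
  rcases lt_or_gt_of_ne hx0 with h2 | h2
  · have h3 : 0 < gg f x := by by_contra hc; push Not at hc; nlinarith
    have h4 := h.pos x h2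
    rw [abs_of_neg h2, abs_of_pos h3, abs_of_pos h4]
    unfold gg; ring
  · have h3 : gg f x < 0 := by by_contra hc; push Not at hc; nlinarith
    have h4 := h.neg x h2
    rw [abs_of_pos h2, abs_of_neg h3, abs_of_neg h4]
    unfold gg; ring

/-- no interval `(-b, b)` of contracting type with `g b = 0` -/
theorem no_contr_interval {b : ℝ} (hb0 : 0 < b) (hb : gg f b = 0)
    (hC : ∀ t, t ≠ 0 → |t| < b → 0 < t * gg f t) : False := by
  have S := h.toSol
  have hadd : ∀ t, |t| < b → |t| = |gg f t| + |f t| := by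
    intro t ht
    rcases eq_or_ne t 0 with e | e
    · rw [e]; unfold gg; rw [S.zero]; simp
    · exact h.abs_contr (hC t e ht)
  have hlc : ∀ t, |t| < b → |f t| ^ 2 ≤ |t| * |f (f t)| := by
    intro t ht
    refine lc_contr (F := gg f) (G := f) (X := {t | |t| < b}) ?_ ?_ ?_ ?_ ht
    · intro x hx
      have hx' : |x| < b := hx
      have := hadd x hx'
      show |gg f x| < b
      linarith [abs_nonneg (f x)]
    · intro x hx
      exact h.M_below hb0 hb hx
    · intro x hx
      have := hadd x hx
      linarith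
    · intro x hx
      exact (S.comm x).symm
  have fne : ∀ t, t ≠ 0 → f t ≠ 0 := fun t ht h0 => ht (h.zero_iff h0)
  obtain ⟨c', hc', hcmin⟩ := shell_min (φ := fun t => |f t|) S.cont.abs (a := b / 2) (b := b)
    (fun t h1 _ => abs_pos.2 (fne t (by intro h2; rw [h2, abs_zero] at h1; linarith)))
  set κ := min (b / 2) c' with hκ
  have hκ0 : 0 < κ := lt_min (by linarith) hc'
  obtain ⟨s, hs1, hs2, hsmax⟩ := shell_max S.cont hκ0 (min_le_left (b / 2) c')
  have hs0 : s ≠ 0 := by intro h0; rw [h0, abs_zero] at hs1; linarith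
  have hsp : 0 < |s| := abs_pos.2 hs0
  have hs_lt : |f s| / |s| < 1 := by
    rw [div_lt_one hsp]
    have h1 := hadd s (by linarith)
    have h2 := hC s hs0 (by linarith)
    have h3 : 0 < |gg f s| := abs_pos.2 (right_ne_zero_of_mul h2.ne')
    linarith
  -- the ratio on `(b/2, b)`
  have hratio : ∀ x, b / 2 < x → x < b → |f x| / |x| ≤ |f s| / |s| := by
    intro x hx1 hx2
    have hx0 : 0 < x := by linarith
    obtain ⟨m, hm, hmin⟩ := shell_min (φ := fun t => |gg f t|) S.contg.abs (a := b / 2) (b := x)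
      (fun t h1 h2 => abs_pos.2 (by
        have ht0 : t ≠ 0 := by intro h3; rw [h3, abs_zero] at h1; linarith
        exact right_ne_zero_of_mul (hC t ht0 (by linarith)).ne'))
    obtain ⟨t, ⟨ht1, ht2, ht3⟩, ht4⟩ := descent
      (fun t => κ ≤ |t| ∧ |t| ≤ x ∧ |f x| / |x| ≤ |f t| / |t|) (fun t => |t|) (b / 2) m hm (by
        rintro t ⟨h1, h2, h3⟩ h4
        have ht0 : t ≠ 0 := by intro h5; rw [h5, abs_zero] at h1; linarith
        have htb : |t| < b := by linarith
        have h5 := hadd t htb
        have h6 := hmin t h4 h2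
        have h7 := hcmin t h4 htb.le
        refine ⟨f t, ⟨(min_le_right _ _).trans h7, by linarith [abs_nonneg (gg f t)], ?_⟩,
          by linarith⟩
        refine h3.trans ?_
        have h8 : 0 < |f t| := abs_pos.2 (fne t ht0)
        rw [div_le_div_iff₀ (abs_pos.2 ht0) h8]
        have := hlc t htb
        nlinarith) x ⟨by rw [abs_of_pos hx0]; exact (min_le_left _ _).trans hx1.le,
          by rw [abs_of_pos hx0], le_rfl⟩
    exact ht3.trans (hsmax t ht1 ht4.le)
  -- limit at `b`
  have hfb : f b = -b := by unfold gg at hb; linarith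
  have hcont : ContinuousAt (fun x => |f x| / |x|) b :=
    (S.cont.abs.continuousAt).div continuous_abs.continuousAt (by simpa using hb0.ne')
  have hlim : Tendsto (fun x => |f x| / |x|) (𝓝[<] b) (𝓝 (|f b| / |b|)) :=
    hcont.tendsto.mono_left nhdsWithin_le_nhds
  have h1 : |f b| / |b| ≤ |f s| / |s| := by
    refine le_of_tendsto hlim ?_
    have : Ioo (b / 2) b ∈ 𝓝[<] b := Ioo_mem_nhdsLT (by linarith)
    filter_upwards [this] with x hx
    exact hratio x hx.1 hx.2
  rw [hfb, abs_neg, div_self (by simpa using hb0.ne')] at h1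
  linarith

/-- **Step α.** -/
theorem M_down {m : ℝ} (hm0 : 0 < m) (hm : gg f m = 0) : ∀ x, |x| < m → gg f x = 0 := by
  have S := h.toSol
  by_contra hne
  push Not at hne
  obtain ⟨x, hxm, hgx⟩ := hne
  set γ := gg f x with hγ
  have hx0 : x ≠ 0 := by
    intro h0; rw [h0] at hγ; unfold gg at hγ; rw [S.zero] at hγ; apply hgx; linarith
  -- boundedness
  have hy : ∀ k, |f^[k] x| < m := by
    intro k
    induction k with
    | zero => exact hxm
    | succ k ih => rw [Function.iterate_succ_apply']; exact h.M_below hm0 hm ih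
  have hcomm : ∀ k, gg f (f^[k] x) = f^[k] γ := by
    intro k
    induction k with
    | zero => rfl
    | succ k ih => rw [Function.iterate_succ_apply', Function.iterate_succ_apply', ← S.comm, ih]
  have fne : ∀ t, t ≠ 0 → f t ≠ 0 := fun t ht h0 => ht (h.zero_iff h0)
  have hγk : ∀ k, f^[k] γ ≠ 0 := by
    intro k
    induction k with
    | zero => exact hgx
    | succ k ih => rw [Function.iterate_succ_apply']; exact fne _ ih
  -- no lower bound for `|f^k γ|`
  have nolow : ∀ c : ℝ, 0 < c → ¬ ∀ k, c ≤ |f^[k] γ| := by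
    intro c hc hlow
    have hty : (0 < x * gg f x) ∨ (x * gg f x < 0) := by
      rcases lt_or_gt_of_ne (mul_ne_zero hx0 (show gg f x ≠ 0 from hgx)) with e | e
      · exact Or.inr e
      · exact Or.inl e
    rcases hty with hty | hty
    · have hk : ∀ k : ℕ, 0 < f^[k] x * gg f (f^[k] x) ∧ |f^[k] x| ≤ m - k * c := by
        intro k
        induction k with
        | zero => exact ⟨hty, by simpa using hxm.le⟩
        | succ k ih =>
          obtain ⟨i1, i2⟩ := ih
          have i3 := h.abs_contr i1
          have i4 := hlow k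
          rw [← hcomm k] at i4
          rw [Function.iterate_succ_apply']
          refine ⟨(h.type_f _).1 i1, ?_⟩
          push_cast
          linarith
      obtain ⟨n, hn⟩ := exists_nat_gt (m / c)
      rw [div_lt_iff₀ hc] at hn
      have := (hk n).2
      linarith [abs_nonneg (f^[n] x)]
    · have hk : ∀ k : ℕ, f^[k] x * gg f (f^[k] x) < 0 ∧ k * c ≤ |f^[k] x| := by
        intro k
        induction k with
        | zero => exact ⟨hty, by simp⟩
        | succ k ih =>
          obtain ⟨i1, i2⟩ := ih
          have i3 := h.abs_exp i1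
          have i4 := hlow k
          rw [← hcomm k] at i4
          rw [Function.iterate_succ_apply']
          refine ⟨(h.type_f _).2 i1, ?_⟩
          push_cast
          linarith
      obtain ⟨n, hn⟩ := exists_nat_gt (m / c)
      rw [div_lt_iff₀ hc] at hn
      have := (hk n).2
      linarith [hy n]
  -- `|γ| < m`
  have hγm : |γ| < m := by
    rcases lt_or_gt_of_ne (mul_ne_zero hx0 (show gg f x ≠ 0 from hgx)) with e | e
    · have h1 := h.abs_exp e
      have h2 := hy 1
      simp only [Function.iterate_one] at h2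
      have := abs_pos.2 hx0
      linarith
    · have h1 := h.abs_contr e
      linarith [abs_nonneg (f x)]
  -- no point of `M` in `(0, |γ|]`
  have noM : ∀ m', 0 < m' → m' ≤ |γ| → gg f m' ≠ 0 := by
    intro m' hm'0 hm'γ hm'
    refine nolow m' hm'0 ?_
    intro k
    rcases hm'γ.eq_or_lt with e | e
    · -- `γ = ± m'`
      have hγM : ∀ k, |f^[k] γ| = m' := by
        intro k
        induction k with
        | zero => exact e.symm
        | succ k ih =>
          rw [Function.iterate_succ_apply']
          rcases (abs_eq hm'0.le).1 ih with e1 | e1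
          · rw [e1]
            have : f m' = -m' := by unfold gg at hm'; linarith
            rw [this, abs_neg, abs_of_pos hm'0]
          · rw [e1]
            have h2 := h.M_symm hm'
            have : f (-m') = m' := by unfold gg at h2; linarith
            rw [this, abs_of_pos hm'0]
      exact (hγM k).ge
    · have : ∀ k, m' < |f^[k] γ| ∧ |f^[k] γ| < m := by
        intro k
        induction k with
        | zero => exact ⟨e, hγm⟩
        | succ k ih =>
          rw [Function.iterate_succ_apply']
          exact ⟨h.M_between hm'0 hm' hm ih.1 ih.2, h.M_below hm0 hm ih.2⟩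
      exact (this k).1.le
  -- the type of `γ`
  have hγ0 : γ ≠ 0 := hgx
  have hgγ : gg f γ ≠ 0 := by
    intro h0
    rcases lt_or_gt_of_ne hγ0 with e | e
    · have := h.M_symm h0
      exact noM (-γ) (by linarith) (by rw [abs_of_neg e]) this
    · exact noM γ e (by rw [abs_of_pos e]) h0
  have hγC : 0 < γ * gg f γ := by
    rcases lt_or_gt_of_ne (mul_ne_zero hγ0 hgγ) with e | e
    · exfalso
      refine nolow |γ| (abs_pos.2 hγ0) ?_
      have : ∀ k, f^[k] γ * gg f (f^[k] γ) < 0 ∧ |γ| ≤ |f^[k] γ| := by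
        intro k
        induction k with
        | zero => exact ⟨e, le_rfl⟩
        | succ k ih =>
          rw [Function.iterate_succ_apply']
          refine ⟨(h.type_f _).2 ih.1, ?_⟩
          have := h.abs_exp ih.1
          linarith [abs_nonneg (gg f (f^[k] γ)), ih.2]
      exact fun k => (this k).2
    · exact e
  -- the first zero
  let T : Set ℝ := {t | |γ| ≤ t ∧ gg f t = 0}
  have hTc : IsClosed T := (isClosed_le continuous_const continuous_id).inter
    (isClosed_eq S.contg continuous_const)
  have hTne : T.Nonempty := ⟨m, hγm.le, hm⟩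
  have hTb : BddBelow T := ⟨|γ|, fun t ht => ht.1⟩
  set b := sInf T with hbdef
  have hbT : b ∈ T := hTc.csInf_mem hTne hTb
  have hγp : 0 < |γ| := abs_pos.2 hγ0
  have hb0 : 0 < b := lt_of_lt_of_le hγp hbT.1
  have hγb : |γ| < b := by
    rcases hbT.1.eq_or_lt with e | e
    · exact absurd (by rw [e]; exact hbT.2) (noM |γ| hγp le_rfl)
    · exact e
  have hfree : ∀ t, 0 < t → t < b → gg f t ≠ 0 := by
    intro t h1 h2 h3
    rcases le_or_gt t |γ| with h4 | h4
    · exact noM t h1 h4 h3
    · have : b ≤ t := csInf_le hTb ⟨h4.le, h3⟩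
      linarith
  have hfree' : ∀ t, t < 0 → -b < t → gg f t ≠ 0 := by
    intro t h1 h2 h3
    exact hfree (-t) (by linarith) (by linarith) (h.M_symm h3)
  -- one positive and one negative point of contracting type
  have hfγb : |f γ| < b := h.M_below hb0 hbT.2 hγb
  have hfγC := (h.type_f γ).1 hγC
  obtain ⟨u, hu0, hub, huC, v, hv0, hvb, hvC⟩ : ∃ u, 0 < u ∧ u < b ∧ 0 < gg f u ∧
      ∃ v, v < 0 ∧ -b < v ∧ gg f v < 0 := by
    rcases lt_or_gt_of_ne hγ0 with e | e
    · have h1 := h.pos γ e
      rw [abs_of_pos h1] at hfγb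
      rw [abs_of_neg e] at hγb
      refine ⟨f γ, h1, hfγb, (pos_iff_pos_of_mul_pos hfγC).1 h1, γ, e, by linarith, ?_⟩
      by_contra hc; push Not at hc; nlinarith
    · have h1 := h.neg γ e
      rw [abs_of_neg h1] at hfγb
      rw [abs_of_pos e] at hγb
      refine ⟨γ, e, hγb, (pos_iff_pos_of_mul_pos hγC).1 e, f γ, h1, by linarith, ?_⟩
      by_contra hc; push Not at hc; nlinarith
  refine h.no_contr_interval hb0 hbT.2 ?_
  intro t ht0 htb
  obtain ⟨ht1, ht2⟩ := abs_lt.1 htb
  rcases lt_or_gt_of_ne ht0 with e | e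
  · have : gg f t < 0 := by
      by_contra hc
      push Not at hc
      have hmem : (0 : ℝ) ∈ uIcc (gg f v) (gg f t) := by
        rw [uIcc_of_le (by linarith)]; exact ⟨hvC.le, hc⟩
      obtain ⟨w, hw, hw0⟩ := intermediate_value_uIcc S.contg.continuousOn hmem
      have hw1 : -b < w := lt_of_lt_of_le (lt_min hvb ht1) hw.1
      have hw2 : w < 0 := lt_of_le_of_lt hw.2 (max_lt hv0 e)
      exact hfree' w hw2 hw1 hw0
    exact mul_pos_of_neg_of_neg e this
  · have : 0 < gg f t := by
      by_contra hc
      push Not at hc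
      have hmem : (0 : ℝ) ∈ uIcc (gg f u) (gg f t) := by
        rw [uIcc_of_ge (by linarith)]; exact ⟨hc, huC.le⟩
      obtain ⟨w, hw, hw0⟩ := intermediate_value_uIcc S.contg.continuousOn hmem
      have hw1 : 0 < w := lt_of_lt_of_le (lt_min hu0 e) hw.1
      have hw2 : w < b := lt_of_le_of_lt hw.2 (max_lt hub ht2)
      exact hfree w hw1 hw2 hw0
    exact mul_pos e this

/-- **Step β.** If `g` has a zero off the origin then `g = 0`. -/
theorem M_all {m0 : ℝ} (hm00 : m0 ≠ 0) (hm0 : gg f m0 = 0) : ∀ x, gg f x = 0 := by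
  have S := h.toSol
  obtain ⟨m, hm1, hm⟩ : ∃ m, 0 < m ∧ gg f m = 0 := by
    rcases lt_or_gt_of_ne hm00 with e | e
    · exact ⟨-m0, by linarith, h.M_symm hm0⟩
    · exact ⟨m0, e, hm0⟩
  by_contra hne
  push Not at hne
  obtain ⟨z, hz0, hz⟩ : ∃ z, 0 < z ∧ gg f z ≠ 0 := by
    obtain ⟨z, hz⟩ := hne
    rcases lt_trichotomy z 0 with e | e | e
    · refine ⟨-z, by linarith, fun h0 => hz ?_⟩
      have := h.M_symm h0
      rwa [neg_neg] at this
    · exfalso; apply hz; rw [e]; unfold gg; rw [S.zero]; ring
    · exact ⟨z, e, hz⟩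
  -- the largest zero
  let T : Set ℝ := {t | m ≤ t ∧ gg f t = 0}
  have hTb' : ∀ t ∈ T, t ≤ z := by
    intro t ht
    by_contra hc
    push Not at hc
    exact hz (h.M_down (by linarith [ht.1]) ht.2 z (by rw [abs_of_pos hz0]; exact hc))
  have hTc : IsClosed T := (isClosed_le continuous_const continuous_id).inter
    (isClosed_eq S.contg continuous_const)
  have hTne : T.Nonempty := ⟨m, le_rfl, hm⟩
  have hTb : BddAbove T := ⟨z, hTb'⟩
  set c := sSup T with hc
  have hcT : c ∈ T := hTc.csSup_mem hTne hTb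
  have hc0 : 0 < c := lt_of_lt_of_le hm1 hcT.1
  have hcz : c < z := by
    rcases (hTb' c hcT).eq_or_lt with e | e
    · exact absurd (by rw [← e]; exact hcT.2) hz
    · exact e
  have hfree : ∀ t, c < t → gg f t ≠ 0 := by
    intro t h1 h2
    have : t ≤ c := le_csSup hTb ⟨by linarith [hcT.1], h2⟩
    linarith
  have hlin : ∀ t, |t| < c → f t = -t := by
    intro t ht
    have := h.M_down hc0 hcT.2 t ht
    unfold gg at this; linarith
  -- choose the parameters
  set μ := |gg f z| with hμ
  have hμ0 : 0 < μ := abs_pos.2 hz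
  have hcont : ContinuousAt (gg f) z := S.contg.continuousAt
  obtain ⟨η, hη, hη1⟩ := Metric.continuousAt_iff.1 hcont (μ / 2) (by linarith)
  have hcont' : ContinuousAt (gg f) c := S.contg.continuousAt
  have hE : 0 < min (min c (μ / 2)) (η / 2) := lt_min (lt_min hc0 (by linarith)) (by linarith)
  obtain ⟨θ, hθ, hθ1⟩ := Metric.continuousAt_iff.1 hcont' _ hE
  set x := c + min (θ / 2) (z - c) with hx
  have hmp : 0 < min (θ / 2) (z - c) := lt_min (by linarith) (by linarith)
  have hxc : c < x := by rw [hx]; linarith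
  have hxz : x ≤ z := by rw [hx]; linarith [min_le_right (θ / 2) (z - c)]
  have hgx := hθ1 (x := x) (by
    rw [Real.dist_eq, hx, add_sub_cancel_left, abs_of_pos hmp]
    linarith [min_le_left (θ / 2) (z - c)])
  rw [hcT.2, Real.dist_eq, sub_zero] at hgx
  set γ := gg f x with hγ
  have hγ1 : |γ| < c := lt_of_lt_of_le hgx ((min_le_left _ _).trans (min_le_left _ _))
  have hγ2 : |γ| < μ / 2 := lt_of_lt_of_le hgx ((min_le_left _ _).trans (min_le_right _ _))
  have hγ3 : |γ| < η / 2 := lt_of_lt_of_le hgx (min_le_right _ _)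
  have hγ0 : γ ≠ 0 := hfree x hxc
  have hfγ : f γ = -γ := hlin γ hγ1
  have hfγ' : f (-γ) = γ := by rw [hlin (-γ) (by rwa [abs_neg]), neg_neg]
  -- even iterates
  have key : ∀ k : ℕ, 0 < x - 2 * k * γ ∧ gg f (x - 2 * k * γ) = γ := by
    intro k
    induction k with
    | zero => simp only [Nat.cast_zero, mul_zero, zero_mul, sub_zero]; exact ⟨by linarith, rfl⟩
    | succ k ih =>
      obtain ⟨i1, i2⟩ := ih
      set y := x - 2 * k * γ with hy
      have e1 : f y = γ - y := by unfold gg at i2; linarith
      have e2 : gg f (f y) = -γ := by rw [← S.comm, i2, hfγ]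
      have e3 : f (f y) = y - 2 * γ := by unfold gg at e2; rw [e1] at e2 ⊢; linarith
      have e4 : gg f (f (f y)) = γ := by rw [← S.comm, e2, hfγ']
      have e5 : x - 2 * ((k + 1 : ℕ) : ℝ) * γ = f (f y) := by rw [e3, hy]; push_cast; ring
      rw [e5]
      exact ⟨h.pos _ (h.neg y i1), e4⟩
  rcases lt_or_gt_of_ne hγ0 with hs | hs
  · -- expanding: the iterates reach `z`
    have hp : 0 < 2 * (-γ) := by linarith
    have h7 := Nat.floor_le (div_nonneg (show 0 ≤ z - x by linarith) hp.le)
    have h8 := Nat.lt_floor_add_one ((z - x) / (2 * (-γ)))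
    set k := ⌊(z - x) / (2 * (-γ))⌋₊ with hk
    rw [le_div_iff₀ hp] at h7
    rw [div_lt_iff₀ hp] at h8
    have h9 := (key k).2
    rw [abs_of_neg hs] at hγ2 hγ3
    have h10 := hη1 (x := x - 2 * k * γ) (by
      rw [Real.dist_eq, abs_lt]
      constructor
      · nlinarith
      · nlinarith)
    rw [h9, Real.dist_eq] at h10
    have h11 : |gg f z| ≤ |γ - gg f z| + |γ| := by
      have := abs_sub_abs_le_abs_sub (gg f z) γ
      rw [abs_sub_comm] at this
      linarith
    rw [← hμ, abs_of_neg hs] at h11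
    linarith
  · obtain ⟨n, hn⟩ := exists_nat_gt (x / (2 * γ))
    rw [div_lt_iff₀ (by linarith)] at hn
    have := (key n).1
    linarith

theorem linear : ∃ a, ∀ x, f x = a * x := by
  by_cases hM : ∀ x, x ≠ 0 → gg f x ≠ 0
  · exact h.linear_of_no_zero hM
  · push Not at hM
    obtain ⟨m, hm0, hm⟩ := hM
    refine ⟨-1, fun x => ?_⟩
    have := h.M_all hm0 hm x
    unfold gg at this
    linarith

end Flip

/-- the classification -/
theorem classify {f : ℝ → ℝ} (h : Sol f) :
    ∃ a b : ℝ, (a = b ∨ (0 ≤ a ∧ 0 ≤ b)) ∧ ∀ x, f x = if 0 ≤ x then a * x else b * x := by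
  by_cases h1 : ∀ x, 0 ≤ x → 0 ≤ f x
  · -- then `f ≤ 0` on the left
    have h2 := h.mirror.cross (fun x hx => by
      have := h1 (-x) (by linarith); linarith)
    obtain ⟨a, ha, hfa⟩ := h.half h1
    obtain ⟨b, hb, hfb⟩ := h.mirror.half h2
    refine ⟨a, b, Or.inr ⟨ha, hb⟩, fun x => ?_⟩
    split_ifs with hx
    · exact hfa x hx
    · have := hfb (-x) (by linarith)
      rw [neg_neg] at this
      linarith
  · push Not at h1
    obtain ⟨x0, hx0, hfx0⟩ := h1
    have hx0' : 0 < x0 := by
      rcases hx0.eq_or_lt with e | e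
      · rw [← e, h.zero] at hfx0; exact absurd hfx0 (lt_irrefl _)
      · exact e
    have h2 : ¬ ∀ x, x ≤ 0 → f x ≤ 0 := by
      intro h3
      have := h.cross h3 x0 hx0
      linarith
    push Not at h2
    obtain ⟨y0, hy0, hfy0⟩ := h2
    have hy0' : y0 < 0 := by
      rcases hy0.eq_or_lt with e | e
      · rw [e, h.zero] at hfy0; exact absurd hfy0 (lt_irrefl _)
      · exact e
    obtain ⟨s1, s2⟩ := h.signs ⟨x0, hx0', hfx0⟩ ⟨y0, hy0', hfy0⟩
    obtain ⟨a, ha⟩ := (Flip.mk h s1 s2).linear
    exact ⟨a, a, Or.inl rfl, fun x => by rw [ha x]; split_ifs <;> rfl⟩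

/-- the functions of the classification are solutions -/
theorem classify_conv {f : ℝ → ℝ} (a b : ℝ) (hab : a = b ∨ (0 ≤ a ∧ 0 ≤ b))
    (hf : ∀ x, f x = if 0 ≤ x then a * x else b * x) : Sol f := by
  have hfun : f = fun x => if 0 ≤ x then a * x else b * x := funext hf
  have p : ∀ x, 0 ≤ x → f x = a * x := fun x hx => by rw [hf, if_pos hx]
  have n : ∀ x, x ≤ 0 → f x = b * x := by
    intro x hx
    rcases hx.eq_or_lt with e | e
    · rw [e, hf, if_pos le_rfl]; simp
    · rw [hf, if_neg (not_le.2 e)]
  refine ⟨?_, ?_⟩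
  · rw [hfun]
    exact Continuous.if_le (continuous_const.mul continuous_id) (continuous_const.mul continuous_id)
      continuous_const continuous_id (fun x hx => by rw [← hx]; simp)
  · intro x
    rcases hab with e | ⟨ha, hb⟩
    · have l : ∀ x, f x = a * x := by
        intro x
        rcases le_total 0 x with h1 | h1
        · exact p x h1
        · rw [n x h1, e]
      simp only [l]; ring
    · rcases le_total 0 x with h1 | h1
      · have h2 : 0 ≤ a * x := mul_nonneg ha h1
        rw [p x h1, p (x + a * x) (by linarith), p (a * x) h2]; ring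
      · have h2 : b * x ≤ 0 := mul_nonpos_of_nonneg_of_nonpos hb h1
        rw [n x h1, n (x + b * x) (by linarith), n (b * x) h2]; ring

end Pool.Agent.U565.FE
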