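import Pool.Agent.U565.FE.Expand
import Pool.Agent.U565.FE.Contract

/-!
Continuous solutions of `f (x + f x) = f x + f (f x)`: behaviour on half-lines.
-/

set_option autoImplicit false

namespace Pool.Agent.U565.FE

open Set Filter Topology

structure Sol (f : ℝ → ℝ) : Prop where
  cont : Continuous f
  eq : ∀ x, f (x + f x) = f x + f (f x)

/-- `id + f` -/
def gg (f : ℝ → ℝ) (x : ℝ) : ℝ := x + f x

namespace Sol

variable {f : ℝ → ℝ} (h : Sol f)

include h

theorem zero : f 0 = 0 := by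
  have := h.eq 0
  rw [zero_add] at this
  linarith

theorem mirror : Sol (fun x => -f (-x)) := by
  refine ⟨(h.cont.comp continuous_neg).neg, fun x => ?_⟩
  have := h.eq (-x)
  simp only [neg_neg]
  rw [show -(x + -f (-x)) = -x + f (-x) by ring, this]
  ring

theorem comm (x : ℝ) : f (gg f x) = gg f (f x) := h.eq x

theorem contg : Continuous (gg f) := continuous_id.add h.cont

theorem f_iter (n : ℕ) (x : ℝ) : f ((gg f)^[n] x) = (gg f)^[n] (f x) := by
  induction n with
  | zero => rfl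
  | succ n ih => rw [Function.iterate_succ_apply', Function.iterate_succ_apply', h.comm, ih]

theorem g_iter_sub (n : ℕ) (x y : ℝ) (hxy : f x = f y) :
    (gg f)^[n] x - (gg f)^[n] y = x - y := by
  induction n with
  | zero => rfl
  | succ n ih =>
    rw [Function.iterate_succ_apply', Function.iterate_succ_apply']
    have h1 := h.f_iter n x
    have h2 := h.f_iter n y
    unfold gg at *
    rw [h1, h2, hxy]
    linarith

/-- backward orbits inside an interval of positivity -/
theorem backward {p Y : ℝ} (hp : f p = 0) (hpY : p < Y) (hpos : ∀ t, p < t → t ≤ Y → 0 < f t)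
    {ε : ℝ} (hε : 0 < ε) : ∃ n y, p < y ∧ y ≤ Y ∧ y < p + ε ∧ (gg f)^[n] y = Y := by
  by_contra hne
  push Not at hne
  -- minimum on the compact part
  have hK : IsCompact (Icc (p + ε) Y) := isCompact_Icc
  obtain ⟨m, hm, hmin⟩ : ∃ m, 0 < m ∧ ∀ t ∈ Icc (p + ε) Y, m ≤ f t := by
    rcases (Icc (p + ε) Y).eq_empty_or_nonempty with he | he
    · exact ⟨1, one_pos, fun t ht => by rw [he] at ht; exact absurd ht (notMem_empty _)⟩
    · obtain ⟨t0, ht0, hmin⟩ := hK.exists_isMinOn he h.cont.continuousOn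
      exact ⟨f t0, hpos t0 (by linarith [ht0.1]) ht0.2, fun t ht => hmin ht⟩
  obtain ⟨t, ⟨h1, h2, n, h3⟩, h4⟩ := descent
    (fun t => p < t ∧ t ≤ Y ∧ ∃ n, (gg f)^[n] t = Y) (fun t => t) (p + ε) m hm (by
      rintro t ⟨h1, h2, n, h3⟩ h4
      have hft := hpos t h1 h2
      obtain ⟨z, hz, hzt⟩ := intermediate_value_Icc h1.le h.contg.continuousOn
        (show t ∈ Icc (gg f p) (gg f t) from by
          unfold gg; rw [hp]; exact ⟨by linarith, by linarith⟩)
      have hzp : p < z := by
        rcases hz.1.eq_or_lt with e | e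
        · rw [← e] at hzt; unfold gg at hzt; rw [hp] at hzt; linarith
        · exact e
      have hzn : (gg f)^[n + 1] z = Y := by rw [Function.iterate_succ_apply, hzt, h3]
      have hzε : p + ε ≤ z := by
        by_contra hc
        push Not at hc
        exact hne (n + 1) z hzp (hz.2.trans h2) hc hzn
      refine ⟨z, ⟨hzp, hz.2.trans h2, n + 1, hzn⟩, ?_⟩
      have := hmin z ⟨hzε, hz.2.trans h2⟩
      unfold gg at hzt
      linarith) Y ⟨hpY, le_rfl, 0, rfl⟩
  exact hne n t h1 h2 h4 h3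

/-- all small positive values are taken near a zero which is a limit of points of positivity -/
theorem small_values {p' : ℝ} (hp' : f p' = 0) (hnear : ∀ ε > 0, ∃ x, |x - p'| < ε ∧ 0 < f x)
    {ε : ℝ} (hε : 0 < ε) : ∃ d0, 0 < d0 ∧ ∀ d, 0 < d → d ≤ d0 → ∃ x, |x - p'| < ε ∧ f x = d := by
  obtain ⟨x0, hx0, hfx0⟩ := hnear ε hε
  refine ⟨f x0, hfx0, fun d hd hd0 => ?_⟩
  have hmem : d ∈ uIcc (f p') (f x0) := by
    rw [hp', uIcc_of_le hfx0.le]; exact ⟨hd.le, hd0⟩
  obtain ⟨x, hx, hxd⟩ := intermediate_value_uIcc h.cont.continuousOn hmem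
  refine ⟨x, ?_, hxd⟩
  have := Set.abs_sub_left_of_mem_uIcc hx
  linarith

/-- **Translation.** -/
theorem trans {p q p' : ℝ} (hp : f p = 0) (hpos : ∀ t, p < t → t < q → 0 < f t)
    (hp' : f p' = 0) (hnear : ∀ ε > 0, ∃ x, |x - p'| < ε ∧ 0 < f x) {Y : ℝ} (hY : p < Y)
    (hYq : Y < q) : f (p' + (Y - p)) = f Y := by
  have key : ∀ ε > 0, ∃ z, |z - (p' + (Y - p))| < ε ∧ f z = f Y := by
    intro ε hε
    obtain ⟨d0, hd0, hd⟩ := h.small_values hp' hnear (half_pos hε)
    -- `f` is small near `p`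
    have hc : ContinuousAt f p := h.cont.continuousAt
    obtain ⟨η, hη, hη1⟩ := Metric.continuousAt_iff.1 hc d0 hd0
    obtain ⟨n, y, hy1, hyY, hy2, hy3⟩ := h.backward hp hY (fun t h1 h2 => hpos t h1 (by linarith))
      (lt_min (half_pos hε) hη)
    have hyη : y < p + η := lt_of_lt_of_le hy2 (by linarith [min_le_right (ε / 2) η])
    have hyε : y < p + ε / 2 := lt_of_lt_of_le hy2 (by linarith [min_le_left (ε / 2) η])
    have hfy : f y < d0 := by
      have := hη1 (x := y) (by rw [Real.dist_eq, abs_of_pos (by linarith)]; linarith)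
      rw [hp, Real.dist_eq, sub_zero] at this
      exact lt_of_abs_lt this
    have hfy0 : 0 < f y := hpos y hy1 (by linarith)
    obtain ⟨x, hx1, hx2⟩ := hd (f y) hfy0 hfy.le
    have h1 := h.g_iter_sub n x y hx2
    refine ⟨(gg f)^[n] x, ?_, ?_⟩
    · have : (gg f)^[n] x = x + Y - y := by rw [hy3] at h1; linarith
      rw [this]
      have e : x + Y - y - (p' + (Y - p)) = (x - p') - (y - p) := by ring
      rw [e]
      have h2 : |y - p| < ε / 2 := by rw [abs_of_pos (by linarith)]; linarith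
      calc |(x - p') - (y - p)| ≤ |x - p'| + |y - p| := abs_sub _ _
        _ < ε := by linarith
    · rw [h.f_iter n x, hx2, ← h.f_iter n y, hy3]
  by_contra hne
  have hd : 0 < |f (p' + (Y - p)) - f Y| := abs_pos.2 (sub_ne_zero.2 hne)
  have hc : ContinuousAt f (p' + (Y - p)) := h.cont.continuousAt
  obtain ⟨η, hη, hη1⟩ := Metric.continuousAt_iff.1 hc _ hd
  obtain ⟨z, hz1, hz2⟩ := key η hη
  have := hη1 (x := z) (by rw [Real.dist_eq]; exact hz1)
  rw [hz2, Real.dist_eq, abs_sub_comm] at this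
  exact lt_irrefl _ this

end Sol

end Pool.Agent.U565.FE
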