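import Pool.Agent.U565.FE.Half

set_option autoImplicit false

namespace Pool.Agent.U565.FE

open Set Filter Topology

namespace Sol

variable {f : ℝ → ℝ} (h : Sol f)

include h

/-- log-convexity if `f` is nonnegative on the right half-line -/
theorem lc_half (hnn : ∀ x, 0 ≤ x → 0 ≤ f x) {y : ℝ} (hy : 0 ≤ y) :
    gg f y ^ 2 ≤ y * gg f (gg f y) := by
  have hg : ∀ x, 0 ≤ x → 0 ≤ gg f x := fun x hx => add_nonneg hx (hnn x hx)
  have := lc_exp (F := f) (G := gg f) (X := Ici 0) (fun x hx => hnn x hx) (fun x hx => hg x hx)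
    (fun x hx => by
      rw [abs_of_nonneg (hg x hx), abs_of_nonneg (show 0 ≤ x from hx),
        abs_of_nonneg (hnn x hx)]; rfl)
    (fun x _ => h.comm x)
    (fun y hy => by
      have hy' : (0 : ℝ) ≤ y := hy
      obtain ⟨z, hz, hzt⟩ := intermediate_value_Icc hy' h.contg.continuousOn
        (show y ∈ Icc (gg f 0) (gg f y) from by
          unfold gg; rw [h.zero, add_zero]; exact ⟨hy', by linarith [hnn y hy']⟩)
      exact ⟨z, hz.1, hzt⟩) (show y ∈ Ici 0 from hy)
  rwa [abs_of_nonneg (hg y hy), abs_of_nonneg hy, abs_of_nonneg (hg _ (hg y hy))] at this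

theorem lc_half' (hnn : ∀ x, 0 ≤ x → 0 ≤ f x) {y : ℝ} (hy : 0 ≤ y) :
    f y ^ 2 ≤ y * f (f y) := by
  have h1 := h.lc_half hnn hy
  have h2 : gg f (gg f y) = y + 2 * f y + f (f y) := by
    have h3 := h.eq y
    have h4 : gg f (gg f y) = gg f y + f (gg f y) := rfl
    have h5 : gg f y = y + f y := rfl
    have h6 : f (gg f y) = f y + f (f y) := h3
    rw [h4, h6, h5]; ring
  rw [h2] at h1
  unfold gg at h1
  nlinarith

/-- positivity near `0+` propagates to the whole half-line -/
theorem pos_of_near {δ : ℝ} (hδ : 0 < δ) (hpos : ∀ t, 0 < t → t < δ → 0 < f t) :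
    ∀ t, 0 < t → 0 < f t := by
  by_contra hne
  push Not at hne
  obtain ⟨t0, ht0, hft0⟩ := hne
  -- the least zero
  let S : Set ℝ := {t | δ / 2 ≤ t ∧ f t ≤ 0}
  have hSc : IsClosed S := (isClosed_le continuous_const continuous_id).inter
    (isClosed_le h.cont continuous_const)
  have hSne : S.Nonempty := by
    refine ⟨t0, ?_, hft0⟩
    by_contra hc
    push Not at hc
    have := hpos t0 ht0 (by linarith)
    linarith
  have hSb : BddBelow S := ⟨δ / 2, fun t ht => ht.1⟩
  set q := sInf S with hq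
  have hqS : q ∈ S := hSc.csInf_mem hSne hSb
  have hq0 : 0 < q := by linarith [hqS.1]
  have hposq : ∀ t, 0 < t → t < q → 0 < f t := by
    intro t h1 h2
    by_contra hc
    push Not at hc
    rcases lt_or_ge t (δ / 2) with h3 | h3
    · have := hpos t h1 (by linarith)
      linarith
    · have : q ≤ t := csInf_le hSb ⟨h3, hc⟩
      linarith
  have hfq : f q = 0 := by
    apply le_antisymm hqS.2
    have h1 : Tendsto f (𝓝[<] q) (𝓝 (f q)) := h.cont.continuousAt.tendsto.mono_left nhdsWithin_le_nhds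
    refine ge_of_tendsto h1 ?_
    have : Ioo 0 q ∈ 𝓝[<] q := Ioo_mem_nhdsLT hq0
    filter_upwards [this] with t ht
    exact (hposq t ht.1 ht.2).le
  -- periodicity
  have per : ∀ k : ℕ, f (k * q) = 0 ∧ (∀ ε > 0, ∃ x, |x - k * q| < ε ∧ 0 < f x) ∧
      ∀ s, 0 ≤ s → s ≤ q → f (k * q + s) = f s := by
    intro k
    induction k with
    | zero =>
      refine ⟨by simp [h.zero], ?_, by simp⟩
      intro ε hε
      refine ⟨min (ε / 2) (q / 2), ?_, hposq _ (lt_min (by linarith) (by linarith)) ?_⟩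
      · simp only [Nat.cast_zero, zero_mul, sub_zero]
        rw [abs_of_pos (lt_min (by linarith) (by linarith))]
        linarith [min_le_left (ε / 2) (q / 2)]
      · linarith [min_le_right (ε / 2) (q / 2)]
    | succ k ih =>
      obtain ⟨i1, i2, i3⟩ := ih
      have e : ((k + 1 : ℕ) : ℝ) * q = k * q + q := by push_cast; ring
      have z : f (((k + 1 : ℕ) : ℝ) * q) = 0 := by rw [e, i3 q hq0.le le_rfl, hfq]
      have near : ∀ ε > 0, ∃ x, |x - ((k + 1 : ℕ) : ℝ) * q| < ε ∧ 0 < f x := by
        intro ε hε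
        have hm : 0 < min (ε / 2) (q / 2) := lt_min (by linarith) (by linarith)
        refine ⟨k * q + (q - min (ε / 2) (q / 2)), ?_, ?_⟩
        · rw [e, show k * q + (q - min (ε / 2) (q / 2)) - (k * q + q) = -min (ε / 2) (q / 2) by ring,
            abs_neg, abs_of_pos hm]
          linarith [min_le_left (ε / 2) (q / 2)]
        · have h2 := min_le_right (ε / 2) (q / 2)
          rw [i3 _ (by linarith) (by linarith)]
          exact hposq _ (by linarith) (by linarith)
      refine ⟨z, near, ?_⟩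
      have hEq : EqOn (fun s => f (((k + 1 : ℕ) : ℝ) * q + s)) f (Ioo 0 q) := by
        intro Y hY
        have := h.trans (p := 0) (q := q) h.zero (fun t h1 h2 => hposq t h1 h2) z near hY.1 hY.2
        simpa using this
      have hcl := hEq.closure (h.cont.comp (continuous_const.add continuous_id)) h.cont
      rw [closure_Ioo hq0.ne] at hcl
      intro s h1 h2
      exact hcl ⟨h1, h2⟩
  -- consequences
  have red : ∀ t, 0 ≤ t → ∃ s, 0 ≤ s ∧ s ≤ q ∧ f t = f s := by
    intro t ht
    have h1 := Nat.floor_le (div_nonneg ht hq0.le)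
    have h2 := Nat.lt_floor_add_one (t / q)
    set k := ⌊t / q⌋₊ with hk
    rw [le_div_iff₀ hq0] at h1
    rw [div_lt_iff₀ hq0] at h2
    refine ⟨t - k * q, by linarith, by nlinarith, ?_⟩
    have := (per k).2.2 (t - k * q) (by linarith) (by nlinarith)
    rw [← this]; congr 1; ring
  have hnq : ∀ s, 0 ≤ s → s ≤ q → 0 ≤ f s := by
    intro s h1 h2
    rcases h1.eq_or_lt with e | e
    · rw [← e, h.zero]
    · rcases h2.eq_or_lt with e' | e'
      · rw [e', hfq]
      · exact (hposq s e e').le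
  have hnn : ∀ t, 0 ≤ t → 0 ≤ f t := by
    intro t ht
    obtain ⟨s, h1, h2, h3⟩ := red t ht
    rw [h3]; exact hnq s h1 h2
  obtain ⟨B, hB⟩ := (isCompact_Icc (a := (0 : ℝ)) (b := q)).exists_bound_of_continuousOn
    h.cont.continuousOn
  have hbd : ∀ t, 0 ≤ t → f t ≤ B := by
    intro t ht
    obtain ⟨s, h1, h2, h3⟩ := red t ht
    rw [h3]
    have := hB s ⟨h1, h2⟩
    rw [Real.norm_eq_abs] at this
    exact (le_abs_self _).trans this
  -- growth along an orbit
  set y0 := q / 2 with hy0
  have hy0p : 0 < y0 := by rw [hy0]; linarith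
  have hfy0 : 0 < f y0 := hposq y0 hy0p (by rw [hy0]; linarith)
  set c := gg f y0 / y0 with hc
  have hc1 : 1 < c := by
    rw [hc, one_lt_div hy0p]; unfold gg; linarith
  have grow : ∀ n : ℕ, 0 < (gg f)^[n] y0 ∧ c * (gg f)^[n] y0 ≤ (gg f)^[n + 1] y0 ∧
      y0 * c ^ n ≤ (gg f)^[n] y0 := by
    intro n
    induction n with
    | zero =>
      refine ⟨hy0p, ?_, by simp⟩
      have : c * y0 = gg f y0 := by rw [hc]; field_simp
      simp [this]
    | succ n ih =>
      obtain ⟨j1, j2, j3⟩ := ih
      have j4 : 0 < (gg f)^[n + 1] y0 := lt_of_lt_of_le (by positivity) j2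
      have j5 := h.lc_half hnn j1.le
      rw [← Function.iterate_succ_apply' (gg f) n, ← Function.iterate_succ_apply' (gg f) (n + 1)] at j5
      refine ⟨j4, ?_, ?_⟩
      · -- `x_{n+1}² ≤ x_n x_{n+2}`, `c x_n ≤ x_{n+1}`
        have j6 : (gg f)^[n] y0 * (c * (gg f)^[n + 1] y0) ≤
            (gg f)^[n] y0 * (gg f)^[n + 1 + 1] y0 := by nlinarith
        exact le_of_mul_le_mul_left j6 j1
      · calc y0 * c ^ (n + 1) = c * (y0 * c ^ n) := by ring
          _ ≤ c * (gg f)^[n] y0 := mul_le_mul_of_nonneg_left j3 (by linarith)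
          _ ≤ _ := j2
  obtain ⟨n, hn⟩ := pow_unbounded_of_one_lt (B / (y0 * (c - 1))) hc1
  have hcp : 0 < y0 * (c - 1) := mul_pos hy0p (by linarith)
  rw [div_lt_iff₀ hcp] at hn
  obtain ⟨j1, j2, j3⟩ := grow n
  have j6 := hbd _ j1.le
  rw [Function.iterate_succ_apply'] at j2
  have j7 : gg f ((gg f)^[n] y0) = (gg f)^[n] y0 + f ((gg f)^[n] y0) := rfl
  rw [j7] at j2
  have j8 : (c - 1) * (y0 * c ^ n) ≤ (c - 1) * (gg f)^[n] y0 :=
    mul_le_mul_of_nonneg_left j3 (by linarith)
  nlinarith

/-- **The half-line case.** -/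
theorem half (hnn : ∀ x, 0 ≤ x → 0 ≤ f x) : ∃ A, 0 ≤ A ∧ ∀ x, 0 ≤ x → f x = A * x := by
  by_cases hz : ∀ x, 0 ≤ x → f x = 0
  · exact ⟨0, le_rfl, fun x hx => by rw [hz x hx, zero_mul]⟩
  push Not at hz
  obtain ⟨x1, hx1, hfx1⟩ := hz
  have hf1 : 0 < f x1 := lt_of_le_of_ne (hnn x1 hx1) (Ne.symm hfx1)
  -- last zero before `x1`
  let S : Set ℝ := {t | t ≤ x1 ∧ 0 ≤ t ∧ f t = 0}
  have hSc : IsClosed S := (isClosed_le continuous_id continuous_const).inter
    ((isClosed_le continuous_const continuous_id).inter (isClosed_eq h.cont continuous_const))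
  have hSne : S.Nonempty := ⟨0, hx1, le_rfl, h.zero⟩
  have hSb : BddAbove S := ⟨x1, fun t ht => ht.1⟩
  set p := sSup S with hp
  have hpS : p ∈ S := hSc.csSup_mem hSne hSb
  have hfp : f p = 0 := hpS.2.2
  have hp0 : 0 ≤ p := hpS.2.1
  have hpx : p < x1 := by
    rcases hpS.1.eq_or_lt with e | e
    · rw [e] at hfp; exact absurd hfp hf1.ne'
    · exact e
  have hpos : ∀ t, p < t → t ≤ x1 → 0 < f t := by
    intro t h1 h2
    by_contra hc
    push Not at hc
    have h3 : f t = 0 := le_antisymm hc (hnn t (by linarith))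
    have : t ≤ p := le_csSup hSb ⟨h2, by linarith, h3⟩
    linarith
  -- positive values near zero
  have hnear : ∀ ε > 0, ∃ x, |x - 0| < ε ∧ 0 < f x := by
    intro ε hε
    have hc : ContinuousAt f p := h.cont.continuousAt
    obtain ⟨η, hη, hη1⟩ := Metric.continuousAt_iff.1 hc ε hε
    set y := p + min (η / 2) (x1 - p) with hy
    have hm : 0 < min (η / 2) (x1 - p) := lt_min (by linarith) (by linarith)
    have hy1 : p < y := by rw [hy]; linarith
    have hy2 : y ≤ x1 := by rw [hy]; linarith [min_le_right (η / 2) (x1 - p)]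
    have hfy := hpos y hy1 hy2
    have h1 := hη1 (x := y) (by
      rw [Real.dist_eq, hy, add_sub_cancel_left, abs_of_pos hm]
      linarith [min_le_left (η / 2) (x1 - p)])
    rw [hfp, Real.dist_eq, sub_zero] at h1
    refine ⟨f y, by rw [sub_zero]; exact h1, ?_⟩
    have h2 := h.lc_half' hnn (show 0 ≤ y by linarith)
    have h3 : 0 < y * f (f y) := lt_of_lt_of_le (by positivity) h2
    exact (pos_iff_pos_of_mul_pos h3).1 (by linarith)
  have hall : ∀ t, 0 < t → 0 < f t := by
    refine h.pos_of_near (δ := x1 - p) (by linarith) ?_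
    intro t h1 h2
    have := h.trans (p := p) (q := x1) hfp (fun t h1 h2 => hpos t h1 h2.le) h.zero hnear
      (Y := p + t) (by linarith) (by linarith)
    rw [show (0 : ℝ) + (p + t - p) = t by ring] at this
    rw [this]; exact hpos _ (by linarith) (by linarith)
  -- the odd extension
  let F : ℝ → ℝ := fun x => if 0 ≤ x then f x else -f (-x)
  have Fp : ∀ x, 0 ≤ x → F x = f x := fun x hx => by simp only [F, if_pos hx]
  have Fn : ∀ x, x < 0 → F x = -f (-x) := fun x hx => by simp only [F, if_neg (not_le.2 hx)]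
  have hE : Expd 1 F (fun x => x + F x) := by
    have hFc : Continuous F := by
      refine Continuous.if_le h.cont (h.cont.comp continuous_neg).neg continuous_const
        continuous_id ?_
      intro x hx
      rw [← hx, neg_zero, h.zero, neg_zero]
    refine ⟨Or.inl rfl, hFc, continuous_id.add hFc, by rw [Fp 0 le_rfl, h.zero],
      fun x => by ring, fun x => ?_, fun x hx => ?_⟩
    · rcases le_or_gt 0 x with hx | hx
      · have h1 : 0 ≤ f x := hnn x hx
        rw [Fp x hx, Fp (x + f x) (by linarith), Fp (f x) h1, h.eq]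
      · have h1 : 0 < f (-x) := hall (-x) (by linarith)
        rw [Fn x hx, Fn (x + -f (-x)) (by linarith), Fn (-f (-x)) (by linarith), neg_neg,
          show -(x + -f (-x)) = -x + f (-x) by ring, h.eq]
        ring
    · rcases lt_or_gt_of_ne hx with h1 | h1
      · rw [Fn x h1]
        have := hall (-x) (by linarith)
        nlinarith
      · rw [Fp x h1.le]
        have := hall x h1
        rw [one_mul]; positivity
  obtain ⟨A, hA, -, s, hs0, hsA, -, hside⟩ := hE.main
  refine ⟨A, hA.le, fun x hx => ?_⟩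
  rcases hx.eq_or_lt with e | hx
  · rw [← e, h.zero, mul_zero]
  rcases lt_or_gt_of_ne hs0 with h1 | h1
  · have := hside s hs0 hsA (-x) (by nlinarith)
    rw [Fn (-x) (by linarith), neg_neg, abs_neg, abs_neg, abs_of_pos hx,
      abs_of_pos (hall x hx)] at this
    exact this
  · have := hside s hs0 hsA x (by positivity)
    rw [Fp x hx.le, abs_of_pos hx, abs_of_pos (hall x hx)] at this
    exact this

/-- If `f ≤ 0` on the left half-line, then `f ≥ 0` on the right half-line. -/
theorem cross (hn : ∀ x, x ≤ 0 → f x ≤ 0) : ∀ x, 0 ≤ x → 0 ≤ f x := by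
  obtain ⟨B, hB, hfB⟩ := h.mirror.half (fun x hx => by
    have := hn (-x) (by linarith); linarith)
  have hfB' : ∀ x, x ≤ 0 → f x = B * x := by
    intro x hx
    have := hfB (-x) (by linarith)
    rw [neg_neg] at this
    linarith
  intro x hx
  by_contra hc
  push Not at hc
  -- the orbit
  have key : ∀ n : ℕ, f ((gg f)^[n] x) ≤ f x ∧
      B * (gg f)^[n] x - f ((gg f)^[n] x) = B * x - f x ∧ (gg f)^[n] x ≤ x + n * f x := by
    intro n
    induction n with
    | zero => simp
    | succ n ih =>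
      obtain ⟨i1, i2, i3⟩ := ih
      have e1 : (gg f)^[n + 1] x = (gg f)^[n] x + f ((gg f)^[n] x) := by
        rw [Function.iterate_succ_apply']; rfl
      have e2 : f ((gg f)^[n + 1] x) = (1 + B) * f ((gg f)^[n] x) := by
        rw [Function.iterate_succ_apply', h.comm]
        unfold gg
        rw [hfB' (f ((fun x => x + f x)^[n] x))]
        · ring
        · have : f ((fun x => x + f x)^[n] x) ≤ f x := i1
          linarith
      refine ⟨?_, ?_, ?_⟩
      · rw [e2]; nlinarith
      · rw [e2, e1]; linarith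
      · rw [e1]; push_cast; linarith
  obtain ⟨n, hn'⟩ := exists_nat_gt (x / (-f x))
  rw [div_lt_iff₀ (by linarith)] at hn'
  obtain ⟨i1, i2, i3⟩ := key n
  have h1 : (gg f)^[n] x ≤ 0 := by nlinarith
  rw [hfB' _ h1] at i2
  have h2 : 0 ≤ B * x := mul_nonneg hB hx
  linarith

end Sol

end Pool.Agent.U565.FE
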