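import Mathlib

/-!
# Log-convexity for nonnegative Pascal arrays

If `W i j ≥ 0` and `W i j = W (i+1) j + W i (j+1)` then `W 1 0 ^ 2 ≤ W 0 0 * W 2 0`.
-/

set_option autoImplicit false

namespace Pool.Agent.U565.FE

open Finset Filter Topology

theorem pascal_expand {W : ℕ → ℕ → ℝ} (hW : ∀ i j, W i j = W (i + 1) j + W i (j + 1)) (N : ℕ) :
    ∀ a b : ℕ, W a b = ∑ i ∈ range (N + 1), (N.choose i : ℝ) * W (a + i) (b + (N - i)) := by
  induction N with
  | zero => intro a b; simp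
  | succ N ih =>
    intro a b
    rw [hW a b, ih (a + 1) b, ih a (b + 1)]
    rw [Finset.sum_range_succ' (fun i => ((N + 1).choose i : ℝ) * W (a + i) (b + (N + 1 - i)))]
    have e1 : ∀ i ∈ range (N + 1), ((N + 1).choose (i + 1) : ℝ) * W (a + (i + 1)) (b + (N + 1 - (i + 1)))
        = (N.choose i : ℝ) * W (a + 1 + i) (b + (N - i))
          + (N.choose (i + 1) : ℝ) * W (a + (i + 1)) (b + (N - i)) := by
      intro i hi
      rw [Nat.choose_succ_succ]
      have h1 : a + (i + 1) = a + 1 + i := by ring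
      have h2 : N + 1 - (i + 1) = N - i := by omega
      rw [h1, h2]
      push_cast
      ring
    rw [Finset.sum_congr rfl e1, Finset.sum_add_distrib, add_assoc]
    congr 1
    rw [Finset.sum_range_succ' (fun i => (N.choose i : ℝ) * W (a + i) (b + 1 + (N - i)))]
    rw [Finset.sum_range_succ (fun i => (N.choose (i + 1) : ℝ) * W (a + (i + 1)) (b + (N - i)))]
    have e2 : ∀ i ∈ range N, (N.choose (i + 1) : ℝ) * W (a + (i + 1)) (b + 1 + (N - (i + 1)))
        = (N.choose (i + 1) : ℝ) * W (a + (i + 1)) (b + (N - i)) := by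
      intro i hi
      have : i < N := Finset.mem_range.1 hi
      have h2 : b + 1 + (N - (i + 1)) = b + (N - i) := by omega
      rw [h2]
    rw [Finset.sum_congr rfl e2]
    have h3 : N.choose (N + 1) = 0 := Nat.choose_succ_self N
    have h4 : b + 1 + (N - 0) = b + (N + 1 - 0) := by omega
    rw [h3, h4]
    simp

theorem pascal_first {W : ℕ → ℕ → ℝ} (hW : ∀ i j, W i j = W (i + 1) j + W i (j + 1)) (N : ℕ)
    (a b : ℕ) :
    ((N : ℝ) + 1) * W (a + 1) b =
      ∑ i ∈ range (N + 2), (i : ℝ) * (((N + 1).choose i : ℝ) * W (a + i) (b + (N + 1 - i))) := by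
  rw [Finset.sum_range_succ', pascal_expand hW N (a + 1) b, Finset.mul_sum]
  simp only [Nat.cast_zero, zero_mul, add_zero]
  refine Finset.sum_congr rfl fun i _ => ?_
  have h1 : a + (i + 1) = a + 1 + i := by ring
  have h2 : N + 1 - (i + 1) = N - i := by omega
  have h3 : ((N : ℝ) + 1) * (N.choose i : ℝ) = ((N + 1).choose (i + 1) : ℝ) * ((i : ℝ) + 1) := by
    exact_mod_cast Nat.add_one_mul_choose_eq N i
  rw [h1, h2]
  push_cast
  linear_combination W (a + 1 + i) (b + (N - i)) * h3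

theorem pascal_second {W : ℕ → ℕ → ℝ} (hW : ∀ i j, W i j = W (i + 1) j + W i (j + 1)) (N : ℕ) :
    ((N : ℝ) + 2) * (((N : ℝ) + 1) * W 2 0) =
      ∑ i ∈ range (N + 3), (i : ℝ) * ((i : ℝ) - 1) *
        (((N + 2).choose i : ℝ) * W i (N + 2 - i)) := by
  rw [Finset.sum_range_succ']
  simp only [Nat.cast_zero, zero_mul, add_zero]
  have h := pascal_first hW N 1 0
  rw [h, Finset.mul_sum]
  refine Finset.sum_congr rfl fun i _ => ?_
  have h1 : 1 + i = i + 1 := by ring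
  have h2 : 0 + (N + 1 - i) = N + 1 - i := by omega
  have h2' : N + 2 - (i + 1) = N + 1 - i := by omega
  have h3 : ((N : ℝ) + 1 + 1) * ((N + 1).choose i : ℝ) =
      ((N + 2).choose (i + 1) : ℝ) * ((i : ℝ) + 1) := by
    exact_mod_cast Nat.add_one_mul_choose_eq (N + 1) i
  rw [h1, h2, h2']
  push_cast
  linear_combination (i : ℝ) * W (i + 1) (N + 1 - i) * h3

theorem logconvex_aux {W : ℕ → ℕ → ℝ} (hW : ∀ i j, W i j = W (i + 1) j + W i (j + 1))
    (h0 : ∀ i j, 0 ≤ W i j) (N : ℕ) :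
    W 1 0 ^ 2 ≤ W 0 0 * (W 2 0 + W 1 0 / ((N : ℝ) + 2)) := by
  set p : ℕ → ℝ := fun i => ((N + 2).choose i : ℝ) * W i (N + 2 - i) with hp
  have hp0 : ∀ i, 0 ≤ p i := fun i => mul_nonneg (Nat.cast_nonneg _) (h0 _ _)
  have s0 : W 0 0 = ∑ i ∈ range (N + 3), p i := by
    have := pascal_expand hW (N + 2) 0 0
    simpa [hp] using this
  have s1 : ((N : ℝ) + 2) * W 1 0 = ∑ i ∈ range (N + 3), (i : ℝ) * p i := by
    have := pascal_first hW (N + 1) 0 0
    simp only [zero_add] at this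
    rw [hp]
    push_cast at this
    rw [← this]; ring
  have s2 : ((N : ℝ) + 2) * (((N : ℝ) + 1) * W 2 0) =
      ∑ i ∈ range (N + 3), (i : ℝ) * ((i : ℝ) - 1) * p i := pascal_second hW N
  have s3 : ∑ i ∈ range (N + 3), (i : ℝ) ^ 2 * p i =
      ((N : ℝ) + 2) * (((N : ℝ) + 1) * W 2 0) + ((N : ℝ) + 2) * W 1 0 := by
    rw [s2, s1, ← Finset.sum_add_distrib]
    refine Finset.sum_congr rfl fun i _ => ?_
    ring
  have cs : (∑ i ∈ range (N + 3), (i : ℝ) * p i) ^ 2 ≤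
      (∑ i ∈ range (N + 3), p i) * ∑ i ∈ range (N + 3), (i : ℝ) ^ 2 * p i := by
    have := Finset.sum_mul_sq_le_sq_mul_sq (range (N + 3)) (fun i => √(p i))
      (fun i => (i : ℝ) * √(p i))
    have e1 : ∀ i, √(p i) * ((i : ℝ) * √(p i)) = (i : ℝ) * p i := fun i => by
      have := Real.mul_self_sqrt (hp0 i)
      linear_combination (i : ℝ) * this
    have e2 : ∀ i, √(p i) ^ 2 = p i := fun i => Real.sq_sqrt (hp0 i)
    have e3 : ∀ i : ℕ, ((i : ℝ) * √(p i)) ^ 2 = (i : ℝ) ^ 2 * p i := fun i => by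
      rw [mul_pow, e2]
    simp only [e1, e2, e3] at this
    exact this
  rw [s3, ← s0, ← s1] at cs
  have hN : (0 : ℝ) < (N : ℝ) + 2 := by positivity
  have h00 := h0 0 0
  have h20 := h0 2 0
  have key : ((N : ℝ) + 2) ^ 2 * W 1 0 ^ 2 ≤
      ((N : ℝ) + 2) ^ 2 * (W 0 0 * (W 2 0 + W 1 0 / ((N : ℝ) + 2))) := by
    have e : ((N : ℝ) + 2) ^ 2 * (W 0 0 * (W 2 0 + W 1 0 / ((N : ℝ) + 2))) =
        ((N : ℝ) + 2) ^ 2 * (W 0 0 * W 2 0) + ((N : ℝ) + 2) * (W 0 0 * W 1 0) := by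
      field_simp
    rw [e]
    nlinarith [mul_nonneg h00 h20, mul_nonneg hN.le (mul_nonneg h00 h20)]
  exact le_of_mul_le_mul_left key (by positivity)

/-- A nonnegative Pascal array is log-convex. -/
theorem logconvex {W : ℕ → ℕ → ℝ} (hW : ∀ i j, W i j = W (i + 1) j + W i (j + 1))
    (h0 : ∀ i j, 0 ≤ W i j) : W 1 0 ^ 2 ≤ W 0 0 * W 2 0 := by
  have hlim : Tendsto (fun N : ℕ => W 0 0 * (W 2 0 + W 1 0 / ((N : ℝ) + 2))) atTop
      (𝓝 (W 0 0 * (W 2 0 + 0))) := by
    refine Tendsto.const_mul _ (Tendsto.const_add _ ?_)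
    refine Tendsto.div_atTop tendsto_const_nhds ?_
    exact tendsto_atTop_add_const_right _ _ tendsto_natCast_atTop_atTop
  rw [add_zero] at hlim
  exact ge_of_tendsto' hlim (logconvex_aux hW h0)

end Pool.Agent.U565.FE
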