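import Pool.Agent.U565.FE.Half2

set_option autoImplicit false

namespace Pool.Agent.U565.FE

open Set Filter Topology

namespace Sol

variable {f : ℝ → ℝ} (h : Sol f)

include h

/-- positive values near `0` and a positive value above a zero force positivity near `0+` -/
theorem near_zero_below (hN : ∀ ε > 0, ∃ x, |x - 0| < ε ∧ 0 < f x) {p x1 : ℝ} (hp : f p = 0)
    (hpx : p < x1) (hx1 : 0 < f x1) : ∀ t, 0 < t → 0 < f t := by
  let S : Set ℝ := {t | t ≤ x1 ∧ p ≤ t ∧ f t = 0}
  have hSc : IsClosed S := (isClosed_le continuous_id continuous_const).inter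
    ((isClosed_le continuous_const continuous_id).inter (isClosed_eq h.cont continuous_const))
  have hSne : S.Nonempty := ⟨p, hpx.le, le_rfl, hp⟩
  have hSb : BddAbove S := ⟨x1, fun t ht => ht.1⟩
  set q := sSup S with hq
  have hqS : q ∈ S := hSc.csSup_mem hSne hSb
  have hfq : f q = 0 := hqS.2.2
  have hqx : q < x1 := by
    rcases hqS.1.eq_or_lt with e | e
    · rw [e] at hfq; exact absurd hfq hx1.ne'
    · exact e
  have hpos : ∀ t, q < t → t ≤ x1 → 0 < f t := by
    intro t h1 h2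
    by_contra hc
    push Not at hc
    obtain ⟨u, hu, hu0⟩ := intermediate_value_Icc h2 h.cont.continuousOn
      (show (0 : ℝ) ∈ Icc (f t) (f x1) from ⟨hc, hx1.le⟩)
    have : u ≤ q := le_csSup hSb ⟨hu.2, by linarith [hu.1, hqS.2.1], hu0⟩
    linarith [hu.1]
  refine h.pos_of_near (δ := x1 - q) (by linarith) ?_
  intro t h1 h2
  have := h.trans (p := q) (q := x1) hfq (fun t h1 h2 => hpos t h1 h2.le) h.zero hN
    (Y := q + t) (by linarith) (by linarith)
  rw [show (0 : ℝ) + (q + t - q) = t by ring] at this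
  rw [this]; exact hpos _ (by linarith) (by linarith)

theorem near_pos (hx0 : ∃ x, 0 < x ∧ f x < 0) (hN : ∀ ε > 0, ∃ x, |x - 0| < ε ∧ 0 < f x) :
    (∀ x, 0 ≤ x → f x ≤ 0) ∧ ∀ x, x < 0 → 0 < f x := by
  obtain ⟨x0, hx0, hfx0⟩ := hx0
  have nozero : ∀ x1, 0 < f x1 → ∀ p, p < x1 → f p ≠ 0 := by
    intro x1 hx1 p hp hfp
    have := h.near_zero_below hN hfp hp hx1 x0 hx0
    linarith
  have h1 : ∀ x, 0 ≤ x → f x ≤ 0 := by
    intro x hx
    by_contra hc
    push Not at hc
    rcases hx.eq_or_lt with e | e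
    · rw [← e, h.zero] at hc; exact lt_irrefl _ hc
    · exact nozero x hc 0 e h.zero
  refine ⟨h1, fun x hx => ?_⟩
  obtain ⟨x1, hx1, hfx1⟩ := hN (-x) (by linarith)
  rw [sub_zero] at hx1
  have h2 : x1 < 0 := by
    by_contra hc
    push Not at hc
    have := h1 x1 hc
    linarith
  rw [abs_of_neg h2] at hx1
  by_contra hc
  push Not at hc
  have hlt : x < x1 := by linarith
  obtain ⟨u, hu, hu0⟩ := intermediate_value_Icc hlt.le h.cont.continuousOn
      (show (0 : ℝ) ∈ Icc (f x) (f x1) from ⟨hc, hfx1.le⟩)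
  rcases hu.2.eq_or_lt with e | e
  · rw [e] at hu0; linarith
  · exact nozero x1 hfx1 u e hu0

theorem near_neg (hy0 : ∃ y, y < 0 ∧ 0 < f y) (hN : ∀ ε > 0, ∃ x, |x - 0| < ε ∧ f x < 0) :
    (∀ x, x ≤ 0 → 0 ≤ f x) ∧ ∀ x, 0 < x → f x < 0 := by
  obtain ⟨y, hy, hfy⟩ := hy0
  obtain ⟨h1, h2⟩ := h.mirror.near_pos ⟨-y, by linarith, by simpa using hfy⟩ (fun ε hε => by
    obtain ⟨x, hx, hfx⟩ := hN ε hε
    exact ⟨-x, by simpa using hx, by simpa using hfx⟩)
  refine ⟨fun x hx => ?_, fun x hx => ?_⟩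
  · have := h1 (-x) (by linarith)
    simp only [neg_neg] at this
    linarith
  · have := h2 (-x) (by linarith)
    simp only [neg_neg] at this
    linarith

/-- in the sign-changing case `f` takes positive values near zero -/
theorem exists_near_pos (hx0 : ∃ x, 0 < x ∧ f x < 0) (hy0 : ∃ y, y < 0 ∧ 0 < f y) :
    ∀ ε > 0, ∃ x, |x - 0| < ε ∧ 0 < f x := by
  by_contra hne
  push Not at hne
  obtain ⟨δ, hδ, hδ1⟩ := hne
  -- an orbit with constant step
  have orbit : ∀ x d : ℝ, f x = -d → f (-d) = 0 → ∀ n : ℕ, f (x - n * d) = -d := by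
    intro x d hx hd n
    induction n with
    | zero => simpa using hx
    | succ n ih =>
      have := h.eq (x - n * d)
      rw [ih, hd] at this
      rw [show x - ((n + 1 : ℕ) : ℝ) * d = x - n * d + -d by push_cast; ring, this]
      ring
  by_cases hN : ∀ ε > 0, ∃ x, |x - 0| < ε ∧ f x < 0
  · obtain ⟨h1, h2⟩ := h.near_neg hy0 hN
    have hc : ContinuousAt f 0 := h.cont.continuousAt
    obtain ⟨η, hη, hη1⟩ := Metric.continuousAt_iff.1 hc δ hδ
    have h3 := hη1 (x := η / 2) (by rw [Real.dist_eq, sub_zero, abs_of_pos (by linarith)]; linarith)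
    rw [h.zero, Real.dist_eq, sub_zero] at h3
    have h4 := h2 (η / 2) (by linarith)
    rw [abs_of_neg h4] at h3
    set d := -f (η / 2) with hd
    have hd0 : 0 < d := by linarith
    have h5 : f (-d) = 0 := by
      apply le_antisymm
      · exact hδ1 (-d) (by rw [sub_zero, abs_neg, abs_of_pos hd0]; exact h3)
      · exact h1 (-d) (by linarith)
    have h6 := orbit (η / 2) d (by rw [hd]; ring) h5
    obtain ⟨n, hn⟩ := exists_nat_gt (η / 2 / d)
    rw [div_lt_iff₀ hd0] at hn
    have h7 := h1 (η / 2 - n * d) (by linarith)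
    rw [h6 n] at h7
    linarith
  · push Not at hN
    obtain ⟨δ', hδ', hδ1'⟩ := hN
    obtain ⟨x0, hx0, hfx0⟩ := hx0
    set e := min (min δ δ') (-f x0) / 2 with he
    have hm : 0 < min (min δ δ') (-f x0) := lt_min (lt_min hδ hδ') (by linarith)
    have he0 : 0 < e := by linarith
    have he1 : e < δ := by
      have := (min_le_left (min δ δ') (-f x0)).trans (min_le_left δ δ')
      linarith
    have he2 : e < δ' := by
      have := (min_le_left (min δ δ') (-f x0)).trans (min_le_right δ δ')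
      linarith
    have he3 : e < -f x0 := by
      have := (min_le_right (min δ δ') (-f x0))
      linarith
    have hz : ∀ t, |t| ≤ e → f t = 0 := by
      intro t ht
      apply le_antisymm
      · exact hδ1 t (by rw [sub_zero]; linarith)
      · exact hδ1' t (by rw [sub_zero]; linarith)
    obtain ⟨x, hx, hfx⟩ := intermediate_value_Icc' hx0.le h.cont.continuousOn
      (show -e ∈ Icc (f x0) (f 0) from ⟨by linarith, by rw [h.zero]; linarith⟩)
    have h6 := orbit x e hfx (hz _ (by rw [abs_neg, abs_of_pos he0]))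
    have h7 := Nat.floor_le (div_nonneg hx.1 he0.le)
    have h8 := Nat.lt_floor_add_one (x / e)
    set k := ⌊x / e⌋₊ with hk
    rw [le_div_iff₀ he0] at h7
    rw [div_lt_iff₀ he0] at h8
    have h9 := hz (x - k * e) (by rw [abs_of_nonneg (by linarith)]; nlinarith)
    rw [h6 k] at h9
    linarith

/-- **Sign-changing solutions have the opposite sign of the variable everywhere.** -/
theorem signs (hx0 : ∃ x, 0 < x ∧ f x < 0) (hy0 : ∃ y, y < 0 ∧ 0 < f y) :
    (∀ x, 0 < x → f x < 0) ∧ ∀ x, x < 0 → 0 < f x := by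
  have h1 := (h.near_pos hx0 (h.exists_near_pos hx0 hy0)).2
  refine ⟨?_, h1⟩
  have hN : ∀ ε > 0, ∃ x, |x - 0| < ε ∧ f x < 0 := by
    intro ε hε
    obtain ⟨x0, hx0, hfx0⟩ := hx0
    obtain ⟨y0, hy0, hfy0⟩ := hy0
    obtain ⟨x, hx, hfx⟩ := h.mirror.exists_near_pos ⟨-y0, by linarith, by simpa using hfy0⟩
      ⟨-x0, by linarith, by simpa using hfx0⟩ ε hε
    exact ⟨-x, by simpa using hx, by simpa using hfx⟩
  exact (h.near_neg hy0 hN).2

end Sol

end Pool.Agent.U565.FE
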